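import Pool.Agent.LibCHd.Cps

/-!
[B5] function fields: dimensions.
-/

open Pool.Agent.LibBH2
open scoped Classical TensorProduct

namespace Pool.Agent.LibCHd

variable {k : Type} [Field k] {H M K : Type} [Field H] [Algebra k H] [Field M] [Algebra k M]
  [Field K] [Algebra k K]

/-- [B5a] `FunF` in terms of the transcendence degree. Proof. `t` is algebraically independent and
`M` is algebraic (finite) over `adjoin k (range t)`, so `t` is a transcendence basis. -/
theorem FunF.trdeg {d : ℕ} (h : FunF k d M) : Algebra.trdeg k M = d := by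
  obtain ⟨t, ht, hf⟩ := h
  have h1 : IsTranscendenceBasis k t := by
    rw [ht.isTranscendenceBasis_iff_isAlgebraic]
    have h2 : Algebra.IsAlgebraic (IntermediateField.adjoin k (Set.range t)) M := inferInstance
    exact IntermediateField.isAlgebraic_adjoin_iff_top.1 h2
  rw [← h1.cardinalMk_eq_trdeg]
  simp

/-- [B5b] Proof. `s = ι X` is transcendental (`ι` is injective) and `H` is finite over the image of
`ι`, which is `adjoin k {s}`. -/
theorem funF_one (ι : RatFunc k →ₐ[k] H) (hι : ι.toRingHom.Finite) : FunF k 1 H := by
  refine ⟨fun _ => ι RatFunc.X, ?_, ?_⟩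
  · rw [algebraicIndependent_unique_type_iff]
    intro h
    exact RatFunc.transcendental_X ((isAlgebraic_algHom_iff ι ι.toRingHom.injective).1 h)
  · have h1 : IntermediateField.adjoin k (Set.range fun _ : Fin 1 => ι RatFunc.X) =
        ι.fieldRange := by
      rw [Set.range_const, ← Set.image_singleton, ← IntermediateField.adjoin_map,
        RatFunc.adjoin_X, ← AlgHom.fieldRange_eq_map]
    rw [h1]
    let _ : Algebra (RatFunc k) H := ι.toRingHom.toAlgebra
    have _ : Module.Finite (RatFunc k) H := hι
    exact Module.Finite.of_equiv_equiv ι.equivFieldRange.toRingEquiv (RingEquiv.refl H)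
      (by ext x; rfl)

/-- [B5c] transport along an isomorphism -/
theorem FunF.congr {d : ℕ} {M' : Type} [Field M'] [Algebra k M'] (ε : M ≃ₐ[k] M')
    (h : FunF k d M) : FunF k d M' := by
  obtain ⟨t, ht, hf⟩ := h
  refine ⟨fun l => ε (t l), ?_, ?_⟩
  · exact ht.map' (f := ε.toAlgHom) ε.injective
  · have h1 : IntermediateField.adjoin k (Set.range fun l => ε (t l)) =
        (IntermediateField.adjoin k (Set.range t)).map (ε : M →ₐ[k] M') := by
      rw [IntermediateField.adjoin_map, ← Set.range_comp]
      rfl
    rw [h1]
    exact Module.Finite.of_equiv_equiv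
      (IntermediateField.intermediateFieldMap ε (IntermediateField.adjoin k (Set.range t))).toRingEquiv
      ε.toRingEquiv (by ext x; rfl)

end Pool.Agent.LibCHd
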