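import Pool.Agent.LibCHd.Cps

/-!
Basic rules for `Red`.
-/

open Pool.Agent.LibBH2
open scoped Classical

namespace Pool.Agent.LibCHd

variable {k : Type} [Field k] {K : Type} [Field K] [Algebra k K] {v : Place k K}

theorem mem_max_iff (f : VR v) : f ∈ IsLocalRing.maximalIdeal (VR v) ↔ v.Zer (f : K) := by
  constructor
  · intro h
    by_contra h'
    exact (IsLocalRing.mem_maximalIdeal f).1 h (isUnit_VR v f h')
  · intro h
    rw [IsLocalRing.mem_maximalIdeal]
    intro hu
    obtain ⟨g, hg⟩ := hu.exists_right_inv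
    have h1 : (f : K) * (g : K) = 1 := by
      have := congrArg (Subtype.val) hg
      simpa using this
    have h2 : v.Zer ((f : K) * (g : K)) := h.mul_reg g.2
    rw [h1] at h2
    rcases h2 with h2 | h2
    · exact one_ne_zero h2
    · rw [v.ord_one] at h2
      exact lt_irrefl _ h2

theorem Red.reg {f : K} {c : RF v} (h : Red v f c) : v.Reg f := h.1

theorem exists_red {f : K} (h : v.Reg f) : ∃ c : RF v, Red v f c := ⟨_, h, rfl⟩

theorem exists_rep (c : RF v) : ∃ f : K, Red v f c := by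
  obtain ⟨f, hf⟩ := IsLocalRing.residue_surjective (R := VR v) c
  exact ⟨f, f.2, hf⟩

theorem Red.unique {f : K} {c d : RF v} (h : Red v f c) (h' : Red v f d) : c = d := by
  obtain ⟨h1, h2⟩ := h
  obtain ⟨h3, h4⟩ := h'
  rw [← h2, ← h4]

theorem Red.add {f g : K} {c d : RF v} (h : Red v f c) (h' : Red v g d) :
    Red v (f + g) (c + d) := by
  obtain ⟨h1, h2⟩ := h
  obtain ⟨h3, h4⟩ := h'
  refine ⟨add_mem h1 h3, ?_⟩
  rw [← h2, ← h4, ← map_add]
  rfl

theorem Red.mul {f g : K} {c d : RF v} (h : Red v f c) (h' : Red v g d) :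
    Red v (f * g) (c * d) := by
  obtain ⟨h1, h2⟩ := h
  obtain ⟨h3, h4⟩ := h'
  refine ⟨mul_mem h1 h3, ?_⟩
  rw [← h2, ← h4, ← map_mul]
  rfl

theorem Red.neg {f : K} {c : RF v} (h : Red v f c) : Red v (-f) (-c) := by
  obtain ⟨h1, h2⟩ := h
  refine ⟨neg_mem h1, ?_⟩
  rw [← h2, ← map_neg]
  rfl

theorem Red.sub {f g : K} {c d : RF v} (h : Red v f c) (h' : Red v g d) :
    Red v (f - g) (c - d) := by
  rw [sub_eq_add_neg, sub_eq_add_neg]
  exact h.add h'.neg

theorem red_const (v : Place k K) (c : k) : Red v (algebraMap k K c) (algebraMap k (RF v) c) :=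
  ⟨v.reg_const c, rfl⟩

theorem red_one (v : Place k K) : Red v (1 : K) 1 := by
  have := red_const v 1
  simpa using this

theorem red_zero (v : Place k K) : Red v (0 : K) 0 := by
  have := red_const v 0
  simpa using this

theorem red_zero_iff {f : K} : Red v f 0 ↔ v.Zer f := by
  constructor
  · rintro ⟨h1, h2⟩
    exact (mem_max_iff ⟨f, h1⟩).1 ((IsLocalRing.residue_eq_zero_iff _).1 h2)
  · intro h
    exact ⟨h.reg, (IsLocalRing.residue_eq_zero_iff _).2 ((mem_max_iff ⟨f, h.reg⟩).2 h)⟩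

theorem Red.pow {f : K} {c : RF v} (h : Red v f c) (n : ℕ) : Red v (f ^ n) (c ^ n) := by
  induction n with
  | zero => simpa using red_one v
  | succ n ih => rw [pow_succ, pow_succ]; exact ih.mul h

theorem red_iff_sub {f : K} {g : K} {c : RF v} (h : Red v f c) : Red v g c ↔ v.Zer (g - f) := by
  constructor
  · intro h'
    rw [← red_zero_iff]
    simpa using h'.sub h
  · intro h'
    have := (red_zero_iff.2 h').add h
    simpa using this

theorem red_iff_val {f : K} {c : k} : Red v f (algebraMap k (RF v) c) ↔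
    v.Zer (f - algebraMap k K c) :=
  red_iff_sub (red_const v c)

theorem Red.ord_eq_zero {f : K} {c : RF v} (h : Red v f c) (hc : c ≠ 0) : v.ord f = 0 :=
  Place.ord_eq_zero_of_reg h.1 fun h' => hc (h.unique (red_zero_iff.2 h'))

theorem Red.ne_zero {f : K} {c : RF v} (h : Red v f c) (hc : c ≠ 0) : f ≠ 0 := by
  rintro rfl
  exact hc (h.unique (red_zero v))

theorem Red.inv {f : K} {c : RF v} (h : Red v f c) (hc : c ≠ 0) : Red v f⁻¹ c⁻¹ := by
  have h0 : v.Reg f⁻¹ := Or.inr (by rw [v.ord_inv, h.ord_eq_zero hc]; simp)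
  obtain ⟨d, hd⟩ := exists_red h0
  have h1 := h.mul hd
  rw [mul_inv_cancel₀ (h.ne_zero hc)] at h1
  have h2 : c * d = 1 := h1.unique (red_one v)
  rwa [show c⁻¹ = d from (eq_inv_of_mul_eq_one_right h2).symm]

theorem Red.div {f g : K} {c d : RF v} (h : Red v f c) (h' : Red v g d) (hd : d ≠ 0) :
    Red v (f / g) (c / d) := by
  rw [div_eq_mul_inv, div_eq_mul_inv]
  exact h.mul (h'.inv hd)

end Pool.Agent.LibCHd
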