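import Pool.Agent.LibCHd.RedAdd2

/-!
The reduction of points of a constant elliptic curve is additive: points reducing to zero.
-/

open scoped Classical
open WeierstrassCurve Pool.Agent.LibBH2

namespace Pool.Agent.LibCHd

variable {k K κ : Type} [Field k] [Field K] [Algebra k K] [Field κ] [Algebra k κ]
variable {W : WeierstrassCurve k} {P : Place k K} {res : K → κ}

/-- the abscissa of a sum of two points is a root of a quadratic polynomial -/
theorem asv_root {F : Type} [Field F] {W : WeierstrassCurve F} [W.IsElliptic]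
    {T S : W.toAffine.Point} {X Y : F} {h : W.toAffine.Nonsingular X Y} (hs : T + S = .some X Y h) :
    asv W T S 2 * X ^ 2 - asv W T S 1 * X + asv W T S 0 = 0 := by
  obtain ⟨c, hc, e⟩ := addSub W T S
  rw [hs] at e
  generalize T - S = D at e
  match D with
  | .zero =>
    change asv W T S = c • ((Affine.Point.some X Y h).sym2x 0) at e
    rw [Affine.Point.sym2x_some_zero] at e
    rw [e]
    simp
  | .some X' Y' h' =>
    rw [Affine.Point.sym2x_some_some] at e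
    rw [e]
    simp
    ring

theorem b₂_eq (F : Type) [Field F] [Algebra k F] : (W⁄F).b₂ = algebraMap k F W.b₂ :=
  W.map_b₂ (algebraMap k F)
theorem b₄_eq (F : Type) [Field F] [Algebra k F] : (W⁄F).b₄ = algebraMap k F W.b₄ :=
  W.map_b₄ (algebraMap k F)
theorem b₆_eq (F : Type) [Field F] [Algebra k F] : (W⁄F).b₆ = algebraMap k F W.b₆ :=
  W.map_b₆ (algebraMap k F)
theorem b₈_eq (F : Type) [Field F] [Algebra k F] : (W⁄F).b₈ = algebraMap k F W.b₈ :=
  W.map_b₈ (algebraMap k F)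

/-- the quadratic form evaluated at `(a, b, c)` -/
def F0 (F : Type) [Field F] [Algebra k F] (W : WeierstrassCurve k) (a b c : F) : F :=
  a ^ 2 - algebraMap k F W.b₄ * a * c - algebraMap k F W.b₆ * b * c - algebraMap k F W.b₈ * c ^ 2

/-- the quadratic form evaluated at `(a, b, c)` -/
def F1 (F : Type) [Field F] [Algebra k F] (W : WeierstrassCurve k) (a b c : F) : F :=
  2 * b * a + algebraMap k F W.b₂ * a * c + algebraMap k F W.b₄ * b * c +
    algebraMap k F W.b₆ * c ^ 2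

/-- the quadratic form evaluated at `(a, b, c)` -/
def F2 (F : Type) [Field F] (a b c : F) : F := b ^ 2 - 4 * a * c

theorem asv_eq {F : Type} [Field F] [Algebra k F] {x₁ y₁ x₂ y₂ : F}
    (h₁ : (W⁄F).toAffine.Nonsingular x₁ y₁) (h₂ : (W⁄F).toAffine.Nonsingular x₂ y₂) :
    asv (W⁄F) (.some x₁ y₁ h₁) (.some x₂ y₂ h₂) 0 = F0 F W (x₁ * x₂) (x₁ + x₂) 1 ∧
    asv (W⁄F) (.some x₁ y₁ h₁) (.some x₂ y₂ h₂) 1 = F1 F W (x₁ * x₂) (x₁ + x₂) 1 ∧
    asv (W⁄F) (.some x₁ y₁ h₁) (.some x₂ y₂ h₂) 2 = F2 F (x₁ * x₂) (x₁ + x₂) 1 := by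
  refine ⟨?_, ?_, ?_⟩
  · simp only [asv, eval_addSubMap_zero, Affine.Point.sym2x_some_some, F0, Matrix.cons_val_zero,
      Matrix.cons_val_one, Matrix.cons_val, b₄_eq, b₆_eq, b₈_eq]
  · simp only [asv, eval_addSubMap_one, Affine.Point.sym2x_some_some, F1, Matrix.cons_val_zero,
      Matrix.cons_val_one, Matrix.cons_val, b₂_eq, b₄_eq, b₆_eq]
  · simp only [asv, eval_addSubMap_two, Affine.Point.sym2x_some_some, F2, Matrix.cons_val_zero,
      Matrix.cons_val_one, Matrix.cons_val]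

/-- the quadratic equation for the abscissa of a sum, in homogeneous form -/
theorem root_hom {F : Type} [Field F] [Algebra k F] [W.IsElliptic] {x₁ y₁ x₂ y₂ : F}
    (h₁ : (W⁄F).toAffine.Nonsingular x₁ y₁) (h₂ : (W⁄F).toAffine.Nonsingular x₂ y₂) {X Y : F}
    {h : (W⁄F).toAffine.Nonsingular X Y}
    (hs : Affine.Point.some x₁ y₁ h₁ + .some x₂ y₂ h₂ = .some X Y h) {m a b c : F} (hm : m ≠ 0)
    (ha : x₁ * x₂ = m * a) (hb : x₁ + x₂ = m * b) (hc : 1 = m * c) :
    F2 F a b c * X ^ 2 - F1 F W a b c * X + F0 F W a b c = 0 := by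
  have : (W⁄F).IsElliptic := inferInstanceAs (W.map (algebraMap k F)).IsElliptic
  have h0 := asv_root (W := W⁄F) hs
  obtain ⟨e0, e1, e2⟩ := asv_eq h₁ h₂
  rw [e0, e1, e2, ha, hb] at h0
  have h1 : m ^ 2 * (F2 F a b c * X ^ 2 - F1 F W a b c * X + F0 F W a b c) = 0 := by
    rw [← h0, F0, F1, F2, F0, F1, F2]
    linear_combination (algebraMap k F W.b₄ * m * a + algebraMap k F W.b₆ * m * b
      + algebraMap k F W.b₈ * (1 + m * c)
      + X * (algebraMap k F W.b₂ * m * a + algebraMap k F W.b₄ * m * b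
        + algebraMap k F W.b₆ * (1 + m * c)) + X ^ 2 * 4 * m * a) * hc
  exact (mul_eq_zero.1 h1).resolve_left (pow_ne_zero 2 hm)

theorem zer_inv {x : K} (h : P.ord x < 0) : P.Zer x⁻¹ := Or.inr (by rw [P.ord_inv]; omega)

/-- the points reducing to zero form a subgroup -/
theorem spG_add_zero [W.IsElliptic] {x₁ y₁ x₂ y₂ : K}
    (h₁ : (W⁄K).toAffine.Nonsingular x₁ y₁) (h₂ : (W⁄K).toAffine.Nonsingular x₂ y₂)
    (hp : P.ord x₁ < 0) (hq : P.ord x₂ < 0) :
    SpG P res (Affine.Point.some x₁ y₁ h₁ + .some x₂ y₂ h₂) 0 := by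
  obtain ⟨R, hR⟩ : ∃ R, Affine.Point.some x₁ y₁ h₁ + .some x₂ y₂ h₂ = R := ⟨_, rfl⟩
  rw [hR]
  match R with
  | .zero => rfl
  | .some X Y h =>
    show P.ord X < 0
    rcases reg_or P X with hX | hX
    · exfalso
      have n1 : x₁ ≠ 0 := by rintro rfl; simp [P.ord_zero] at hp
      have n2 : x₂ ≠ 0 := by rintro rfl; simp [P.ord_zero] at hq
      have z1 := zer_inv hp
      have z2 := zer_inv hq
      have e := root_hom h₁ h₂ hR (m := x₁ * x₂) (a := 1) (b := x₁⁻¹ + x₂⁻¹) (c := x₁⁻¹ * x₂⁻¹)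
        (mul_ne_zero n1 n2) (by ring) (by field_simp; ring) (by field_simp)
      have zb : P.Zer (x₁⁻¹ + x₂⁻¹) := z1.add z2
      have zc : P.Zer (x₁⁻¹ * x₂⁻¹) := z1.mul_reg z2.reg
      set b := x₁⁻¹ + x₂⁻¹
      set c := x₁⁻¹ * x₂⁻¹
      have r := P.reg_const (K := K)
      have r2 : P.Reg (2 : K) := by
        have h := P.reg_const (K := K) (2 : k)
        rwa [map_ofNat] at h
      have r4 : P.Reg (4 : K) := by
        have h := P.reg_const (K := K) (4 : k)
        rwa [map_ofNat] at h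
      rw [F0, F1, F2] at e
      have h3 : (1 : K) = b * (2 * X + algebraMap k K W.b₄ * c * X - b * X ^ 2 +
          algebraMap k K W.b₆ * c) + c * (4 * X ^ 2 + algebraMap k K W.b₂ * X +
          algebraMap k K W.b₆ * c * X + algebraMap k K W.b₄ + algebraMap k K W.b₈ * c) := by
        linear_combination e
      apply not_zer_one P
      rw [h3]
      refine (zb.mul_reg ?_).add (zc.mul_reg ?_)
      · exact (((r2.mul hX).add (((r _).mul zc.reg).mul hX)).sub (zb.reg.mul (hX.pow 2))).add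
          ((r _).mul zc.reg)
      · exact ((((r4.mul (hX.pow 2)).add ((r _).mul hX)).add (((r _).mul zc.reg).mul hX)).add
          (r _)).add ((r _).mul zc.reg)
    · exact hX

/-- one point reduces to zero: the abscissa -/
theorem spG_mixed_x [W.IsElliptic] (hr : IsRes P res) {x₁ y₁ x₂ y₂ : K}
    (h₁ : (W⁄K).toAffine.Nonsingular x₁ y₁) (h₂ : (W⁄K).toAffine.Nonsingular x₂ y₂)
    (hp : P.ord x₁ < 0) (hq : P.Reg x₂) {X Y : K} {h : (W⁄K).toAffine.Nonsingular X Y}
    (hR : Affine.Point.some x₁ y₁ h₁ + .some x₂ y₂ h₂ = .some X Y h) :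
    P.Reg X ∧ res X = res x₂ := by
  have n1 : x₁ ≠ 0 := by rintro rfl; simp [P.ord_zero] at hp
  have z := zer_inv hp
  have e := root_hom h₁ h₂ hR (m := x₁) (a := x₂) (b := 1 + x₂ * x₁⁻¹) (c := x₁⁻¹)
    n1 (by ring) (by field_simp) (by field_simp)
  set c := x₁⁻¹
  have r := P.reg_const (K := K)
  have r1 : P.Reg (1 : K) := by simpa using P.reg_const (K := K) 1
  have r2 : P.Reg (2 : K) := by
    have h := P.reg_const (K := K) (2 : k)
    rwa [map_ofNat] at h
  have r4 : P.Reg (4 : K) := by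
    have h := P.reg_const (K := K) (4 : k)
    rwa [map_ofNat] at h
  have rb : P.Reg (1 + x₂ * c) := r1.add (hq.mul z.reg)
  -- `F2 = 1 + zero`
  have e2 : F2 K x₂ (1 + x₂ * c) c = 1 + c * (2 * x₂ + x₂ ^ 2 * c - 4 * x₂) := by
    rw [F2]; ring
  have e1 : F1 K W x₂ (1 + x₂ * c) c = 2 * x₂ + c * (2 * x₂ ^ 2 + algebraMap k K W.b₂ * x₂ +
      algebraMap k K W.b₄ * (1 + x₂ * c) + algebraMap k K W.b₆ * c) := by
    rw [F1]; ring
  have e0 : F0 K W x₂ (1 + x₂ * c) c = x₂ ^ 2 + c * (-(algebraMap k K W.b₄ * x₂) -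
      algebraMap k K W.b₆ * (1 + x₂ * c) - algebraMap k K W.b₈ * c) := by
    rw [F0]; ring
  obtain ⟨u2, hu2, hu2'⟩ : ∃ u, P.Zer u ∧ F2 K x₂ (1 + x₂ * c) c = 1 + u :=
    ⟨_, z.mul_reg (((r2.mul hq).add ((hq.pow 2).mul z.reg)).sub (r4.mul hq)), e2⟩
  obtain ⟨u1, hu1, hu1'⟩ : ∃ u, P.Zer u ∧ F1 K W x₂ (1 + x₂ * c) c = 2 * x₂ + u :=
    ⟨_, z.mul_reg ((((r2.mul (hq.pow 2)).add ((r _).mul hq)).add ((r _).mul rb)).add
      ((r _).mul z.reg)), e1⟩
  obtain ⟨u0, hu0, hu0'⟩ : ∃ u, P.Zer u ∧ F0 K W x₂ (1 + x₂ * c) c = x₂ ^ 2 + u :=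
    ⟨_, z.mul_reg ((((r _).mul hq).neg.sub ((r _).mul rb)).sub ((r _).mul z.reg)), e0⟩
  rw [hu2', hu1', hu0'] at e
  have q1 : res (1 + u2) = 1 := by
    rw [hr.add _ _ r1 hu2.reg, (hr.zero_iff _ hu2.reg).2 hu2, hr.one, add_zero]
  have q0 : (1 + u2) ≠ 0 := by
    intro h0
    rw [h0, hr.zero] at q1
    exact zero_ne_one q1
  have hX : P.Reg X := by
    obtain ⟨g1, _⟩ := hr.reg_div ((r2.mul hq).add hu1.reg) (r1.add hu2.reg)
      (by rw [q1]; exact one_ne_zero)
    obtain ⟨g2, _⟩ := hr.reg_div ((hq.pow 2).add hu0.reg) (r1.add hu2.reg)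
      (by rw [q1]; exact one_ne_zero)
    refine reg_of_quad g1.neg g2.neg ?_
    field_simp
    linear_combination e
  refine ⟨hX, ?_⟩
  have h3 := congrArg res e
  have s2 : res (2 : K) = 2 := by
    have h := hr.const (2 : k)
    rwa [map_ofNat, map_ofNat] at h
  rw [hr.zero, hr.add _ _ (((r1.add hu2.reg).mul (hX.pow 2)).sub
    (((r2.mul hq).add hu1.reg).mul hX)) ((hq.pow 2).add hu0.reg),
    hr.sub ((r1.add hu2.reg).mul (hX.pow 2)) (((r2.mul hq).add hu1.reg).mul hX),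
    hr.mul _ _ (r1.add hu2.reg) (hX.pow 2), q1, hr.pow hX,
    hr.mul _ _ ((r2.mul hq).add hu1.reg) hX, hr.add _ _ (r2.mul hq) hu1.reg,
    (hr.zero_iff _ hu1.reg).2 hu1, hr.add _ _ (hq.pow 2) hu0.reg, (hr.zero_iff _ hu0.reg).2 hu0,
    hr.pow hq, hr.mul _ _ r2 hq, s2] at h3
  have h4 : (res X - res x₂) ^ 2 = 0 := by linear_combination h3
  exact sub_eq_zero.1 (pow_eq_zero_iff (two_ne_zero) |>.1 h4)

/-- one point reduces to zero -/
theorem spG_mixed [W.IsElliptic] (hr : IsRes P res) {x₁ y₁ x₂ y₂ : K}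
    (h₁ : (W⁄K).toAffine.Nonsingular x₁ y₁) (h₂ : (W⁄K).toAffine.Nonsingular x₂ y₂)
    (hp : P.ord x₁ < 0) {q : (W⁄κ).toAffine.Point}
    (hq : SpG P res (.some x₂ y₂ h₂) q) (hx₂ : P.Reg x₂) :
    SpG P res (Affine.Point.some x₁ y₁ h₁ + .some x₂ y₂ h₂) q := by
  obtain ⟨R, hR⟩ : ∃ R, Affine.Point.some x₁ y₁ h₁ + .some x₂ y₂ h₂ = R := ⟨_, rfl⟩
  have hT0 : SpG P res (.some x₁ y₁ h₁) (0 : (W⁄κ).toAffine.Point) := hp
  match R with
  | .zero =>
    exfalso
    have h3 : Affine.Point.some x₁ y₁ h₁ = - .some x₂ y₂ h₂ := eq_neg_of_add_eq_zero_left hR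
    rw [Affine.Point.neg_some] at h3
    have h4 : x₁ = x₂ := by
      injection h3
    rw [h4] at hp
    rcases hx₂ with h5 | h5
    · rw [h5, P.ord_zero] at hp; exact lt_irrefl _ hp
    · omega
  | .some X Y h =>
    obtain ⟨hX, hX'⟩ := spG_mixed_x hr h₁ h₂ hp hx₂ hR
    have hy₂ := reg_y h₂.1 hx₂
    have hY := reg_y h.1 hX
    have : (W⁄κ).toAffine.IsElliptic := inferInstanceAs (W.map (algebraMap k κ)).IsElliptic
    have n2 : (W⁄κ).toAffine.Nonsingular (res x₂) (res y₂) :=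
      Affine.equation_iff_nonsingular.1 (eq_res hr h₂.1 hx₂ hy₂)
    have n3 : (W⁄κ).toAffine.Nonsingular (res X) (res Y) :=
      Affine.equation_iff_nonsingular.1 (eq_res hr h.1 hX hY)
    have s2 : SpG P res (.some x₂ y₂ h₂) (.some (res x₂) (res y₂) n2) := ⟨hx₂, hy₂, rfl, rfl⟩
    have s3 : SpG P res (.some X Y h) (.some (res X) (res Y) n3) := ⟨hX, hY, rfl, rfl⟩
    have hq' : q = .some (res x₂) (res y₂) n2 := SpG_unique hq s2
    rw [hR, hq']
    rcases Affine.Y_eq_of_X_eq n3.1 n2.1 hX' with h4 | h4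
    · refine ⟨hX, hY, hX', h4⟩
    · -- the reduction of the sum is minus the reduction of the second point
      have e3 : Affine.Point.some (res X) (res Y) n3 = - .some (res x₂) (res y₂) n2 := by
        rw [Affine.Point.neg_some]
        congr 1
      have e4 : (Affine.Point.some X Y h) + (- .some x₂ y₂ h₂) = .some x₁ y₁ h₁ := by
        rw [← hR]; abel
      have s5 : SpG P res ((Affine.Point.some X Y h) + (- .some x₂ y₂ h₂))
          (Affine.Point.some (res X) (res Y) n3 + (- .some (res x₂) (res y₂) n2)) := by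
        have s6 := spG_neg hr s2
        rw [Affine.Point.neg_some, Affine.Point.neg_some] at s6 ⊢
        exact spG_add_affine hr _ _ _ _ s3 s6
      rw [e4] at s5
      have e6 := SpG_unique hT0 s5
      rw [e3] at e6
      have e7 : Affine.Point.some (res X) (res Y) n3 = .some (res x₂) (res y₂) n2 := by
        rw [e3, eq_comm, ← sub_eq_zero, sub_neg_eq_add]
        have := congrArg Neg.neg e6
        rw [neg_zero, neg_add, neg_neg] at this
        exact this.symm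
      rw [e7] at s3
      exact s3

/-- **Additivity of the reduction.** -/
theorem spG_add [W.IsElliptic] (hr : IsRes P res) {T S : (W⁄K).toAffine.Point}
    {p q : (W⁄κ).toAffine.Point} (hp : SpG P res T p) (hq : SpG P res S q) :
    SpG P res (T + S) (p + q) := by
  match T, S, p, q with
  | .zero, S, p, q =>
    have : p = 0 := hp
    subst this
    show SpG P res (0 + S) (0 + q)
    rw [zero_add, zero_add]; exact hq
  | .some x₁ y₁ h₁, .zero, p, q =>
    have : q = 0 := hq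
    subst this
    show SpG P res (_ + 0) (p + 0)
    rw [add_zero, add_zero]; exact hp
  | .some x₁ y₁ h₁, .some x₂ y₂ h₂, .zero, .zero =>
    show SpG P res _ (0 + 0)
    rw [add_zero]
    exact spG_add_zero h₁ h₂ hp hq
  | .some x₁ y₁ h₁, .some x₂ y₂ h₂, .zero, .some X₂ Y₂ H₂ =>
    show SpG P res _ (0 + _)
    rw [zero_add]
    exact spG_mixed hr h₁ h₂ hp hq hq.1
  | .some x₁ y₁ h₁, .some x₂ y₂ h₂, .some X₁ Y₁ H₁, .zero =>
    show SpG P res _ (_ + 0)
    rw [add_zero, add_comm]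
    exact spG_mixed hr h₂ h₁ hq hp hp.1
  | .some x₁ y₁ h₁, .some x₂ y₂ h₂, .some X₁ Y₁ H₁, .some X₂ Y₂ H₂ =>
    exact spG_add_affine hr h₁ h₂ H₁ H₂ hp hq

end Pool.Agent.LibCHd
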