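import Pool.Agent.LibCHd.Api
import Pool.Agent.LibCHd.RedAdd3

/-!
The specialisation of points of a constant elliptic curve at a place is a homomorphism.
-/

open scoped Classical
open WeierstrassCurve Pool.Agent.LibBH2

namespace Pool.Agent.LibCHd

variable {k K : Type} [Field k] [Field K] [Algebra k K]

/-- the residue map of a place -/
noncomputable def resF (v : Place k K) (f : K) : RF v :=
  if h : f ∈ VR v then IsLocalRing.residue (VR v) ⟨f, h⟩ else 0

theorem resF_of_reg {v : Place k K} {f : K} (h : v.Reg f) :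
    resF v f = IsLocalRing.residue (VR v) ⟨f, h⟩ := dif_pos h

theorem red_iff {v : Place k K} {f : K} {c : RF v} : Red v f c ↔ v.Reg f ∧ resF v f = c := by
  constructor
  · rintro ⟨h, rfl⟩
    exact ⟨h, resF_of_reg h⟩
  · rintro ⟨h, rfl⟩
    exact ⟨h, (resF_of_reg h).symm⟩

theorem isRes_resF (v : Place k K) : IsRes v (resF v) where
  add f g hf hg := by
    rw [resF_of_reg hf, resF_of_reg hg, resF_of_reg (hf.add hg)]
    exact map_add (IsLocalRing.residue (VR v)) (⟨f, hf⟩ : VR v) (⟨g, hg⟩ : VR v)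
  mul f g hf hg := by
    rw [resF_of_reg hf, resF_of_reg hg, resF_of_reg (hf.mul hg)]
    exact map_mul (IsLocalRing.residue (VR v)) (⟨f, hf⟩ : VR v) (⟨g, hg⟩ : VR v)
  const c := by
    rw [resF_of_reg (v.reg_const c)]
    rfl
  zero_iff f hf := by
    rw [resF_of_reg hf, IsLocalRing.residue_eq_zero_iff]
    exact mem_max_iff ⟨f, hf⟩

theorem SpR_iff {v : Place k K} {W : WeierstrassCurve k} {T : (W⁄K).toAffine.Point}
    {p : (W⁄(RF v)).toAffine.Point} : SpR v T p ↔ SpG v (resF v) T p := by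
  match T, p with
  | .zero, p => exact Iff.rfl
  | .some x y h, .zero => exact Iff.rfl
  | .some x y h, .some x₀ y₀ h₀ =>
    show Red v x x₀ ∧ Red v y y₀ ↔ v.Reg x ∧ v.Reg y ∧ resF v x = x₀ ∧ resF v y = y₀
    rw [red_iff, red_iff]
    tauto

/-- every point specialises -/
theorem SpR_exists (v : Place k K) {W : WeierstrassCurve k} [W.IsElliptic]
    (T : (W⁄K).toAffine.Point) : ∃ p : (W⁄(RF v)).toAffine.Point, SpR v T p := by
  obtain ⟨p, hp⟩ := exists_SpG (isRes_resF v) T
  exact ⟨p, SpR_iff.2 hp⟩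

/-- the specialisation is unique -/
theorem SpR_unique {v : Place k K} {W : WeierstrassCurve k} {T : (W⁄K).toAffine.Point}
    {p q : (W⁄(RF v)).toAffine.Point} (hp : SpR v T p) (hq : SpR v T q) : p = q :=
  SpG_unique (SpR_iff.1 hp) (SpR_iff.1 hq)

/-- the specialisation is additive -/
theorem SpR_add {v : Place k K} {W : WeierstrassCurve k} [W.IsElliptic]
    {T S : (W⁄K).toAffine.Point} {p q : (W⁄(RF v)).toAffine.Point} (hp : SpR v T p)
    (hq : SpR v S q) : SpR v (T + S) (p + q) :=
  SpR_iff.2 (spG_add (isRes_resF v) (SpR_iff.1 hp) (SpR_iff.1 hq))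

end Pool.Agent.LibCHd
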