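import Pool.Agent.LibCHd.A1
import Pool.Agent.LibCHd.R6

/-!
The residues of a subfield on which the place is not trivial: they form a field of smaller
transcendence degree, over which the specialisations of points are defined.
-/

open scoped Classical
open WeierstrassCurve Pool.Agent.LibBH2

namespace Pool.Agent.LibCHd

variable {k K κ M : Type} [Field k] [Field K] [Algebra k K] [Field κ] [Algebra k κ] [Field M]
  [Algebra k M]
variable {P : Place k K} {res : K → κ}

/-- the residues of the elements of `M` -/
def resField (hr : IsRes P res) (j : M →ₐ[k] K) : IntermediateField k κ where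
  carrier := {c | ∃ m, P.Reg (j m) ∧ res (j m) = c}
  mul_mem' := by
    rintro _ _ ⟨m, hm, rfl⟩ ⟨n, hn, rfl⟩
    refine ⟨m * n, ?_, ?_⟩
    · rw [map_mul]; exact hm.mul hn
    · rw [map_mul, hr.mul _ _ hm hn]
  add_mem' := by
    rintro _ _ ⟨m, hm, rfl⟩ ⟨n, hn, rfl⟩
    refine ⟨m + n, ?_, ?_⟩
    · rw [map_add]; exact hm.add hn
    · rw [map_add, hr.add _ _ hm hn]
  algebraMap_mem' := by
    intro c
    refine ⟨algebraMap k M c, ?_, ?_⟩
    · rw [AlgHom.commutes]; exact P.reg_const c
    · rw [AlgHom.commutes, hr.const]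
  inv_mem' := by
    rintro _ ⟨m, hm, rfl⟩
    by_cases h0 : res (j m) = 0
    · refine ⟨0, ?_, ?_⟩
      · rw [map_zero]; exact P.reg_zero
      · rw [map_zero, h0, inv_zero, hr.zero]
    · obtain ⟨h1, h2⟩ := hr.reg_inv hm h0
      exact ⟨m⁻¹, by rw [map_inv₀]; exact h1, by rw [map_inv₀]; exact h2⟩

theorem mem_resField {hr : IsRes P res} {j : M →ₐ[k] K} {m : M} (h : P.Reg (j m)) :
    res (j m) ∈ resField hr j := ⟨m, h, rfl⟩

/-- residues of values of polynomials -/
theorem res_aeval (hr : IsRes P res) (j : M →ₐ[k] K) {ι : Type} (u : ι → M)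
    (hu : ∀ i, P.Reg (j (u i))) (F : MvPolynomial ι k) :
    P.Reg (j (MvPolynomial.aeval u F)) ∧
      res (j (MvPolynomial.aeval u F)) = MvPolynomial.aeval (fun i => res (j (u i))) F := by
  induction F using MvPolynomial.induction_on with
  | C a =>
    rw [MvPolynomial.aeval_C, MvPolynomial.aeval_C, AlgHom.commutes]
    exact ⟨P.reg_const a, hr.const a⟩
  | add p q hp hq =>
    rw [map_add, map_add, map_add]
    exact ⟨hp.1.add hq.1, by rw [hr.add _ _ hp.1 hq.1, hp.2, hq.2]⟩
  | mul_X p i hp =>
    rw [map_mul, map_mul, map_mul, MvPolynomial.aeval_X, MvPolynomial.aeval_X]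
    exact ⟨hp.1.mul (hu i), by rw [hr.mul _ _ hp.1 (hu i), hp.2]⟩

/-- the transcendence degree drops -/
theorem trdeg_resField {d : ℕ} (hM : Algebra.trdeg k M ≤ d) (hr : IsRes P res) (j : M →ₐ[k] K)
    (hP : ∃ m, P.ord (j m) ≠ 0) : Algebra.trdeg k (resField hr j) < d := by
  by_contra hcon
  push Not at hcon
  obtain ⟨s, hs⟩ := exists_isTranscendenceBasis k (resField hr j)
  rw [← hs.cardinalMk_eq_trdeg] at hcon
  obtain ⟨e⟩ : Nonempty (Fin d ↪ s) := by
    rw [← Cardinal.mk_fin] at hcon
    exact hcon
  have hind : AlgebraicIndependent k (fun i : Fin d => ((e i : resField hr j))) :=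
    hs.1.comp e e.injective
  choose m hm using fun i : Fin d => ((e i : resField hr j)).2
  obtain ⟨n, hn⟩ := hP
  apply hn
  refine ord_triv_of_indep (ι := Fin d) (by simpa using hM) j P m (fun F hF => ?_) n
  obtain ⟨h1, h2⟩ := res_aeval hr j m (fun i => (hm i).1) F
  have h3 : MvPolynomial.aeval (fun i => res (j (m i))) F ≠ 0 := by
    have h4 : (fun i => res (j (m i))) = fun i => (((e i : resField hr j)) : κ) := by
      funext i; exact (hm i).2
    rw [h4]
    have h5 := hind.map' (f := (resField hr j).val) (resField hr j).val.injective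
    exact fun h0 => hF (h5.eq_zero_of_aeval_eq_zero F h0)
  rw [← h2] at h3
  refine ⟨hr.ord_eq_zero h1 h3, ?_⟩
  intro h0
  rw [h0, hr.zero] at h3
  exact h3 rfl

/-- points with coordinates in `M` specialise to points over the field of residues -/
theorem spG_resField {W : WeierstrassCurve k} [W.IsElliptic] (hr : IsRes P res) (j : M →ₐ[k] K)
    (T : (W⁄M).toAffine.Point) :
    ∃ p : (W⁄(resField hr j)).toAffine.Point,
      SpG P res (Affine.Point.map (W' := W) j T) (Affine.Point.map (W' := W) (resField hr j).val p) := by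
  match T with
  | .zero => exact ⟨0, rfl⟩
  | .some x y h =>
    rcases reg_or P (j x) with hx | hx
    · have h' : (W⁄K).toAffine.Nonsingular (j x) (j y) :=
        (Affine.baseChange_nonsingular W j.injective x y).2 h
      have hy : P.Reg (j y) := reg_y h'.1 hx
      have : (W⁄κ).toAffine.IsElliptic := inferInstanceAs (W.map (algebraMap k κ)).IsElliptic
      have h'' : (W⁄κ).toAffine.Nonsingular (res (j x)) (res (j y)) :=
        Affine.equation_iff_nonsingular.1 (eq_res hr h'.1 hx hy)
      have h3 : (W⁄(resField hr j)).toAffine.Nonsingular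
          (⟨res (j x), mem_resField hx⟩ : resField hr j) ⟨res (j y), mem_resField hy⟩ :=
        (Affine.baseChange_nonsingular W (resField hr j).val.injective _ _).1 h''
      exact ⟨.some _ _ h3, hx, hy, rfl, rfl⟩
    · exact ⟨0, hx⟩

/-- if `k` is algebraically closed and `H` has transcendence degree one, points with coordinates
in `H` specialise to points over `k` -/
theorem spG_const [IsAlgClosed k] {H : Type} [Field H] [Algebra k H]
    (hH : Algebra.trdeg k H ≤ 1) {W : WeierstrassCurve k} [W.IsElliptic] (hr : IsRes P res)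
    (j : H →ₐ[k] K) (hP : ∃ m, P.ord (j m) ≠ 0) (T : (W⁄H).toAffine.Point) :
    ∃ p : W.toAffine.Point, SpG P res (Affine.Point.map (W' := W) j T) (constPt κ p) := by
  match T with
  | .zero => exact ⟨0, rfl⟩
  | .some x y h =>
    rcases reg_or P (j x) with hx | hx
    · have h' : (W⁄K).toAffine.Nonsingular (j x) (j y) :=
        (Affine.baseChange_nonsingular W j.injective x y).2 h
      have hy : P.Reg (j y) := reg_y h'.1 hx
      obtain ⟨a, ha⟩ := exists_val hH j P hP x hx
      obtain ⟨b, hb⟩ := exists_val hH j P hP y hy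
      have hxa : res (j x) = algebraMap k κ a := by
        have := (hr.zero_iff _ ha.reg).2 ha
        rw [hr.sub hx (P.reg_const a), hr.const] at this
        exact sub_eq_zero.1 this
      have hyb : res (j y) = algebraMap k κ b := by
        have := (hr.zero_iff _ hb.reg).2 hb
        rw [hr.sub hy (P.reg_const b), hr.const] at this
        exact sub_eq_zero.1 this
      have h2 := eq_res hr h'.1 hx hy
      rw [hxa, hyb] at h2
      have h3 : W.toAffine.Equation a b := (Affine.map_equation W (algebraMap k κ).injective a b).1 h2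
      have : W.toAffine.IsElliptic := inferInstanceAs W.IsElliptic
      exact ⟨.some a b (Affine.equation_iff_nonsingular.1 h3), hx, hy, hxa, hyb⟩
    · exact ⟨0, hx⟩

end Pool.Agent.LibCHd
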