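import Pool.Agent.LibCHd.Small
import Pool.Agent.LibCHd.B5

/-!
[A] places of `K` which are not trivial on `M`: the specialisations have dimension smaller than `d`.
-/

open WeierstrassCurve Pool.Agent.LibBH2 Pool.Agent.LibIG50
open scoped Classical TensorProduct

namespace Pool.Agent.LibCHd

variable {k : Type} [Field k] {r : ℕ} {W : Fin r → WeierstrassCurve k} {Y : Prj k}

/-- [A0] on a function field of one variable the regular functions have values in `k` -/
theorem rat_of_funF {H : Type} [Field H] [Algebra k H] [IsAlgClosed k] (hH : FunF k 1 H)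
    (v : Place k H) : Rat v := by
  intro f hf
  obtain ⟨t, ht⟩ := v.exists_uniformizer
  exact exists_val (by rw [hH.trdeg]; simp) (AlgHom.id k H) v
    ⟨t, by show v.ord t ≠ 0; rw [ht]; exact one_ne_zero⟩ f hf

/-- a point defined over a subfield of smaller transcendence degree has the cycle zero -/
theorem cyc_eq_zero_of_fld {d : ℕ} {F : Type} [Field F] [Algebra k F] (hF : FunF k d F)
    (q : Pnt W Y F) (L : IntermediateField k F) (hL : Algebra.trdeg k L < d) (hq : fld q ≤ L) :
    cyc q = 0 := by
  have h0 : Module.finrank (fld q) F = 0 := by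
    by_contra hne
    have hfin : FiniteDimensional (fld q) F := Module.finite_of_finrank_pos (Nat.pos_of_ne_zero hne)
    have halg : Algebra.IsAlgebraic (fld q) F := inferInstance
    have h1 : Algebra.trdeg k (fld q) = d := by
      rw [← hF.trdeg, ← trdeg_add_eq k (fld q) (A := F), trdeg_eq_zero_iff.2 halg, add_zero]
    have h2 : Algebra.trdeg k (fld q) ≤ Algebra.trdeg k L :=
      trdeg_le_of_injective (IntermediateField.inclusion hq)
        (IntermediateField.inclusion_injective hq)
    rw [h1] at h2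
    exact absurd hL (not_lt.2 h2)
  rw [cyc, h0]
  simp

/-- coordinates of the image of a point under a map -/
theorem hc_map {W : WeierstrassCurve k} {F G : Type} [Field F] [Algebra k F] [Field G] [Algebra k G]
    (f : F →ₐ[k] G) (p : (W⁄F).toAffine.Point) (a : Fin 3) :
    hc (Affine.Point.map (W' := W) f p) a = f (hc p a) := by
  match p with
  | .zero =>
    show (![0, 1, 0] : Fin 3 → G) a = f ((![0, 1, 0] : Fin 3 → F) a)
    fin_cases a <;> simp
  | .some x y h =>
    show (![f x, f y, 1] : Fin 3 → G) a = f ((![x, y, 1] : Fin 3 → F) a)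
    fin_cases a <;> simp

/-- the field of definition of a point all of whose components come from the subfield `L` -/
theorem fld_le {F : Type} [Field F] [Algebra k F] (q : Pnt W Y F) (L : IntermediateField k F)
    (hz : ∀ i, ∃ p : ((W i)⁄L).toAffine.Point, q.z i = Affine.Point.map (W' := W i) L.val p)
    (hy : ∀ a b, q.y a / q.y b ∈ L) : fld q ≤ L := by
  rw [fld, IntermediateField.adjoin_le_iff]
  rintro c (⟨i, a, b, rfl⟩ | ⟨a, b, rfl⟩)
  · obtain ⟨p, hp⟩ := hz i
    have ha : hc (q.z i) a = L.val (hc p a) := by rw [hp]; exact hc_map L.val p a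
    have hb : hc (q.z i) b = L.val (hc p b) := by rw [hp]; exact hc_map L.val p b
    rw [ha, hb]
    exact L.div_mem (hc p a).2 (hc p b).2
  · exact hy a b

variable {H M K : Type} [Field H] [Algebra k H] [Field M] [Algebra k M] [Field K] [Algebra k K]

/-- [A7] **Places which are not trivial on `M` do not contribute.** -/
theorem cyc_eq_zero [IsAlgClosed k] (hW : ∀ n, (W n).IsElliptic) {d : ℕ} (hH : FunF k 1 H)
    (hM : FunF k d M) (i : H →ₐ[k] K) (j : M →ₐ[k] K) (T : ∀ n, ((W n)⁄H).toAffine.Point)
    (u : Pnt W Y M) (w : Place k K) (φ : H) (hφ : w.ord (i φ) ≠ 0) (m₀ : M)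
    (hm₀ : w.ord (j m₀) ≠ 0) (hw : FunF k d (RF w)) (q : Pnt W Y (RF w))
    (hq : SpV w (Pnt.add (fun n => mp i (T n)) (u.map j)) q) : cyc q = 0 := by
  have hr := isRes_resF w
  apply cyc_eq_zero_of_fld hw q (resField hr j) (trdeg_resField hM.trdeg.le hr j ⟨m₀, hm₀⟩)
  apply fld_le
  · intro n
    have hWi := hW n
    obtain ⟨p, hp⟩ := spG_const (by rw [hH.trdeg]; simp) hr i ⟨φ, hφ⟩ (T n)
    obtain ⟨s, hs⟩ := spG_resField hr j (u.z n)
    have h1 := spG_add hr hp hs
    have h2 := SpG_unique (SpR_iff.1 (hq.1 n)) h1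
    refine ⟨constPt (resField hr j) p + s, ?_⟩
    rw [h2, map_add]
    congr 1
    match p with
    | .zero => rfl
    | .some x y h => rfl
  · intro a b
    obtain ⟨l, hl0, hl⟩ := hq.2
    have key : ∀ a b, q.y b ≠ 0 → q.y a / q.y b ∈ resField hr j := by
      intro a b hb
      obtain ⟨ra, ea⟩ := red_iff.1 (hl a)
      obtain ⟨rb, eb⟩ := red_iff.1 (hl b)
      rw [← eb] at hb
      obtain ⟨h1, h2⟩ := hr.reg_div ra rb hb
      have h3 : l * (Pnt.add (fun n => mp i (T n)) (u.map j)).y a /
          (l * (Pnt.add (fun n => mp i (T n)) (u.map j)).y b) = j (u.y a / u.y b) := by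
        rw [mul_div_mul_left _ _ hl0, map_div₀]
        rfl
      rw [h3] at h1 h2
      rw [← ea, ← eb, ← h2]
      exact mem_resField h1
    obtain ⟨c, hc⟩ : ∃ c, q.y c ≠ 0 := by
      by_contra hcon
      push Not at hcon
      exact q.y_ne (funext hcon)
    have h4 : q.y a / q.y b = (q.y a / q.y c) / (q.y b / q.y c) := by
      rw [div_div_div_cancel_right₀ hc]
    rw [h4]
    exact (resField hr j).div_mem (key a c hc) (key b c hc)

end Pool.Agent.LibCHd
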