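import Pool.Agent.LibCHd.Cps

/-!
[B0] Laurent expansion at a place with residue field `k`.
-/

open Pool.Agent.LibBH2
open scoped Classical TensorProduct

namespace Pool.Agent.LibCHd

variable {k : Type} [Field k] {H M : Type} [Field H] [Algebra k H] [Field M] [Algebra k M]

section b0

theorem b0_vl (v : Place k H) (hv : Rat v) :
    ∃ vl : VR v →+* k, ∀ f : VR v, v.Zer ((f : H) - algebraMap k H (vl f)) := by
  choose u hu using hv
  have key : ∀ (f : VR v) (c : k), v.Zer ((f : H) - algebraMap k H c) → u f f.2 = c :=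
    fun f c h => Place.val_unique (hu f f.2) h
  refine ⟨{ toFun := fun f => u f f.2
            map_one' := key 1 1 (by
              rw [map_one]
              exact Or.inl (sub_self _))
            map_mul' := fun f g => key (f * g) _ (Place.val_mul (hu f f.2) (hu g g.2))
            map_zero' := key 0 0 (by
              rw [map_zero]
              exact Or.inl (sub_self _))
            map_add' := fun f g => key (f + g) _ (Place.val_add (hu f f.2) (hu g g.2)) },
    fun f => hu f f.2⟩

theorem b0_vl_cst {v : Place k H} {vl : VR v →+* k}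
    (hvl : ∀ f : VR v, v.Zer ((f : H) - algebraMap k H (vl f))) (c : k) : vl (cst v c) = c :=
  Place.val_unique (hvl _) (Or.inl (sub_self _))

theorem b0_nx {v : Place k H} {vl : VR v →+* k}
    (hvl : ∀ f : VR v, v.Zer ((f : H) - algebraMap k H (vl f))) {t : H} (ht : v.ord t = 1) :
    ∃ nx : VR v → VR v, ∀ f : VR v, (nx f : H) * t = (f : H) - algebraMap k H (vl f) := by
  have ht0 : t ≠ 0 := by
    rintro rfl
    rw [v.ord_zero] at ht
    norm_num at ht
  have h1 : ∀ f : VR v, v.Reg (((f : H) - algebraMap k H (vl f)) / t) := by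
    intro f
    rcases hvl f with h | h
    · exact Or.inl (by rw [h, zero_div])
    · by_cases h0 : (f : H) - algebraMap k H (vl f) = 0
      · exact Or.inl (by rw [h0, zero_div])
      · refine Or.inr ?_
        rw [v.ord_div _ _ h0 ht0, ht]
        omega
  exact ⟨fun f => ⟨_, h1 f⟩, fun f => div_mul_cancel₀ _ ht0⟩

variable {v : Place k H} {vl : VR v →+* k} {t : H} {nx : VR v → VR v}

theorem b0_nx_unique (ht0 : t ≠ 0)
    (hnx : ∀ f : VR v, (nx f : H) * t = (f : H) - algebraMap k H (vl f)) {f g : VR v}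
    (h : (g : H) * t = (f : H) - algebraMap k H (vl f)) : nx f = g :=
  Subtype.ext (mul_right_cancel₀ ht0 ((hnx f).trans h.symm))

theorem b0_nx_add (ht0 : t ≠ 0)
    (hnx : ∀ f : VR v, (nx f : H) * t = (f : H) - algebraMap k H (vl f)) (f g : VR v) :
    nx (f + g) = nx f + nx g := by
  apply b0_nx_unique ht0 hnx
  rw [Subring.coe_add, add_mul, hnx, hnx, map_add, map_add, Subring.coe_add]
  ring

theorem b0_nx_mul (ht0 : t ≠ 0)
    (hnx : ∀ f : VR v, (nx f : H) * t = (f : H) - algebraMap k H (vl f)) (f g : VR v) :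
    nx (f * g) = nx f * g + cst v (vl f) * nx g := by
  apply b0_nx_unique ht0 hnx
  have e : ((cst v (vl f) : VR v) : H) = algebraMap k H (vl f) := rfl
  rw [Subring.coe_add, Subring.coe_mul, Subring.coe_mul, e, map_mul, map_mul, Subring.coe_mul,
    add_mul, mul_assoc, mul_comm (g : H) t, ← mul_assoc, hnx, mul_assoc _ _ t, hnx]
  ring

theorem b0_nx_cst (ht0 : t ≠ 0) (hvl : ∀ f : VR v, v.Zer ((f : H) - algebraMap k H (vl f)))
    (hnx : ∀ f : VR v, (nx f : H) * t = (f : H) - algebraMap k H (vl f)) (c : k) :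
    nx (cst v c) = 0 := by
  apply b0_nx_unique ht0 hnx
  have e : ((cst v c : VR v) : H) = algebraMap k H c := rfl
  rw [b0_vl_cst hvl, e, Subring.coe_zero, zero_mul, sub_self]

theorem b0_co_add (ht0 : t ≠ 0)
    (hnx : ∀ f : VR v, (nx f : H) * t = (f : H) - algebraMap k H (vl f)) (n : ℕ) :
    ∀ f g : VR v, vl (nx^[n] (f + g)) = vl (nx^[n] f) + vl (nx^[n] g) := by
  induction n with
  | zero => exact fun f g => map_add vl f g
  | succ n ih =>
    intro f g
    rw [Function.iterate_succ_apply, Function.iterate_succ_apply, Function.iterate_succ_apply,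
      b0_nx_add ht0 hnx, ih]

theorem b0_co_cst_mul (ht0 : t ≠ 0) (hvl : ∀ f : VR v, v.Zer ((f : H) - algebraMap k H (vl f)))
    (hnx : ∀ f : VR v, (nx f : H) * t = (f : H) - algebraMap k H (vl f)) (c : k) (n : ℕ) :
    ∀ g : VR v, vl (nx^[n] (cst v c * g)) = c * vl (nx^[n] g) := by
  induction n with
  | zero =>
    intro g
    rw [Function.iterate_zero_apply, Function.iterate_zero_apply, map_mul, b0_vl_cst hvl]
  | succ n ih =>
    intro g
    rw [Function.iterate_succ_apply, Function.iterate_succ_apply, b0_nx_mul ht0 hnx,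
      b0_nx_cst ht0 hvl hnx, zero_mul, zero_add, b0_vl_cst hvl, ih]

theorem b0_co_cst (ht0 : t ≠ 0) (hvl : ∀ f : VR v, v.Zer ((f : H) - algebraMap k H (vl f)))
    (hnx : ∀ f : VR v, (nx f : H) * t = (f : H) - algebraMap k H (vl f)) (c : k) (n : ℕ) :
    vl (nx^[n] (cst v c)) = if n = 0 then c else 0 := by
  cases n with
  | zero => rw [Function.iterate_zero_apply, b0_vl_cst hvl, if_pos rfl]
  | succ n =>
    rw [Function.iterate_succ_apply, b0_nx_cst ht0 hvl hnx, if_neg (Nat.succ_ne_zero n)]
    have h := b0_co_cst_mul ht0 hvl hnx 0 n 0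
    rw [mul_zero, zero_mul] at h
    exact h

theorem b0_co_mul (ht0 : t ≠ 0) (hvl : ∀ f : VR v, v.Zer ((f : H) - algebraMap k H (vl f)))
    (hnx : ∀ f : VR v, (nx f : H) * t = (f : H) - algebraMap k H (vl f)) (n : ℕ) :
    ∀ f g : VR v, vl (nx^[n] (f * g)) =
      ∑ p ∈ Finset.HasAntidiagonal.antidiagonal n, vl (nx^[p.1] f) * vl (nx^[p.2] g) := by
  induction n with
  | zero =>
    intro f g
    simp
  | succ n ih =>
    intro f g
    rw [Function.iterate_succ_apply, b0_nx_mul ht0 hnx, b0_co_add ht0 hnx, ih,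
      b0_co_cst_mul ht0 hvl hnx, Finset.Nat.sum_antidiagonal_succ, add_comm]
    simp only [Function.iterate_succ_apply, Function.iterate_zero_apply]

theorem b0_co_ord (ht : v.ord t = 1) (ht0 : t ≠ 0)
    (hvl : ∀ f : VR v, v.Zer ((f : H) - algebraMap k H (vl f)))
    (hnx : ∀ f : VR v, (nx f : H) * t = (f : H) - algebraMap k H (vl f)) (n : ℕ) :
    ∀ f : VR v, (f : H) ≠ 0 → v.ord (f : H) = n →
      (∀ l < n, vl (nx^[l] f) = 0) ∧ vl (nx^[n] f) ≠ 0 := by
  induction n with
  | zero =>
    intro f hf0 hf
    refine ⟨fun l hl => absurd hl (Nat.not_lt_zero l), ?_⟩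
    rw [Function.iterate_zero_apply]
    intro h0
    have h1 := hvl f
    rw [h0, map_zero, sub_zero] at h1
    rcases h1 with h1 | h1
    · exact hf0 h1
    · rw [hf] at h1
      exact lt_irrefl _ h1
  | succ n ih =>
    intro f hf0 hf
    have h0 : vl f = 0 := by
      refine Place.val_unique (hvl f) ?_
      rw [map_zero, sub_zero]
      refine Or.inr ?_
      rw [hf]
      positivity
    have h1 : (nx f : H) * t = f := by rw [hnx, h0, map_zero, sub_zero]
    have h2 : (nx f : H) ≠ 0 := by
      intro h2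
      rw [h2, zero_mul] at h1
      exact hf0 h1.symm
    have h3 : v.ord (nx f : H) = n := by
      have h4 := v.ord_mul _ _ h2 ht0
      rw [h1, hf, ht] at h4
      push_cast at h4
      linarith
    obtain ⟨h5, h6⟩ := ih (nx f) h2 h3
    refine ⟨fun l hl => ?_, by rwa [Function.iterate_succ_apply]⟩
    cases l with
    | zero => exact h0
    | succ l =>
      rw [Function.iterate_succ_apply]
      exact h5 l (by omega)

/-- Expansion of the elements of the valuation ring. -/
theorem b0_expand (M : Type) [Field M] [Algebra k M] (ht : v.ord t = 1)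
    (hvl : ∀ f : VR v, v.Zer ((f : H) - algebraMap k H (vl f)))
    (hnx : ∀ f : VR v, (nx f : H) * t = (f : H) - algebraMap k H (vl f)) :
    ∃ e : VR v →+* LaurentSeries M,
      (∀ c : k, e (cst v c) = HahnSeries.C (algebraMap k M c)) ∧
      (∀ f : VR v, (f : H) ≠ 0 → e f ≠ 0 ∧ (e f).order = v.ord (f : H)) ∧
      (∀ f n, ∃ c : k, (e f).coeff n = algebraMap k M c) ∧
      ∀ f : VR v, (f : H) = t → e f = HahnSeries.single 1 1 := by
  have ht0 : t ≠ 0 := by
    rintro rfl
    rw [v.ord_zero] at ht
    norm_num at ht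
  let P : VR v →+* PowerSeries k :=
    { toFun := fun f => PowerSeries.mk fun n => vl (nx^[n] f)
      map_one' := by
        ext n
        rw [PowerSeries.coeff_mk, PowerSeries.coeff_one, ← map_one (cst v),
          b0_co_cst ht0 hvl hnx]
      map_mul' := fun f g => by
        ext n
        rw [PowerSeries.coeff_mk, PowerSeries.coeff_mul, b0_co_mul ht0 hvl hnx]
        simp only [PowerSeries.coeff_mk]
      map_zero' := by
        ext n
        rw [PowerSeries.coeff_mk, ← map_zero (cst v), b0_co_cst ht0 hvl hnx]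
        simp
      map_add' := fun f g => by
        ext n
        rw [map_add, PowerSeries.coeff_mk, PowerSeries.coeff_mk, PowerSeries.coeff_mk,
          b0_co_add ht0 hnx] }
  have hP : ∀ f n, PowerSeries.coeff n (P f) = vl (nx^[n] f) := fun f n =>
    PowerSeries.coeff_mk n (fun n => vl (nx^[n] f))
  let e : VR v →+* LaurentSeries M :=
    (HahnSeries.ofPowerSeries ℤ M).comp ((PowerSeries.map (algebraMap k M)).comp P)
  have he : ∀ f, e f = HahnSeries.ofPowerSeries ℤ M (PowerSeries.map (algebraMap k M) (P f)) :=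
    fun f => rfl
  have hc : ∀ (f : VR v) (i : ℤ), (e f).coeff i =
      if i < 0 then 0 else algebraMap k M (vl (nx^[i.natAbs] f)) := by
    intro f i
    rw [he, PowerSeries.coeff_coe, PowerSeries.coeff_map, hP]
  refine ⟨e, ?_, ?_, ?_, ?_⟩
  · intro c
    have h1 : P (cst v c) = PowerSeries.C c := by
      ext n
      rw [hP, b0_co_cst ht0 hvl hnx, PowerSeries.coeff_C]
    rw [he, h1, PowerSeries.map_C, HahnSeries.ofPowerSeries_C]
  · intro f hf
    have hr : 0 ≤ v.ord (f : H) := (f.2 : v.Reg (f : H)).resolve_left hf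
    obtain ⟨n, hn⟩ := Int.eq_ofNat_of_zero_le hr
    obtain ⟨h1, h2⟩ := b0_co_ord ht ht0 hvl hnx n f hf hn
    have h3 : (e f).coeff (n : ℤ) ≠ 0 := by
      rw [hc, if_neg (by omega), Int.natAbs_natCast]
      intro h0
      exact h2 ((map_eq_zero _).1 h0)
    have h4 : e f ≠ 0 := by
      intro h0
      rw [h0, HahnSeries.coeff_zero] at h3
      exact h3 rfl
    refine ⟨h4, le_antisymm (by rw [hn]; exact HahnSeries.order_le_of_coeff_ne_zero h3) ?_⟩
    rw [hn]
    by_contra hlt
    push Not at hlt
    have h5 : (e f).coeff (e f).order ≠ 0 := by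
      rwa [Ne, HahnSeries.coeff_order_eq_zero]
    apply h5
    rw [hc]
    split_ifs with h6
    · rfl
    · rw [h1 _ (by omega), map_zero]
  · intro f n
    rw [hc]
    split_ifs
    · exact ⟨0, (map_zero _).symm⟩
    · exact ⟨_, rfl⟩
  · intro f hf
    have h0 : vl f = 0 := by
      refine Place.val_unique (hvl f) ?_
      rw [map_zero, sub_zero, hf]
      refine Or.inr ?_
      rw [ht]
      norm_num
    have h1 : nx f = 1 := by
      apply b0_nx_unique ht0 hnx
      rw [h0, hf, map_zero, sub_zero, Subring.coe_one, one_mul]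
    have h2 : P f = PowerSeries.X := by
      ext n
      rw [hP, PowerSeries.coeff_X]
      cases n with
      | zero => rw [Function.iterate_zero_apply, h0, if_neg (by norm_num)]
      | succ n =>
        rw [Function.iterate_succ_apply, h1, ← map_one (cst v), b0_co_cst ht0 hvl hnx]
        simp
    rw [he, h2, PowerSeries.map_X, HahnSeries.ofPowerSeries_X]

end b0

/-- Laurent expansion, with the coefficients seen in the bigger field `M`. (Ring homomorphisms, not
algebra homomorphisms: `Algebra k (LaurentSeries M)` has two instances.)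

Proof. Let `t` be an element with `v.ord t = 1`. For `f` in the valuation ring `VR v` and a power
series `P` over `k` write `Ex f P` for: for all `n`, `f - ∑ l < n, P_l t ^ l` is `0` or has order
`≥ n`. Existence: `f_0 = f`, `c_n` the value of `f_n` (`hv`), `f_(n+1) = (f_n - c_n) / t`, regular;
`f = ∑ l < n, c_l t ^ l + t ^ n f_n`. Uniqueness: if `Ex f P`, `Ex f Q` and `n` is minimal with
`P_n ≠ Q_n` then `(P_n - Q_n) t ^ n` has order `n` and also `≥ n + 1`. `Ex` is compatible with sums,
products (`Ex f P`, `Ex g Q` → `Ex (f g) (P Q)`: modulo order `n`, the product of the truncations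
is the truncation of the product) and constants. So `f ↦ P` is a ring homomorphism
`VR v →+* PowerSeries k`, with `order P = v.ord f` for `f ≠ 0` (if `v.ord f = n`: coefficients below
`n` vanish, coefficient `n` does not). Compose with `PowerSeries.map (algebraMap k M)` and the
inclusion in `LaurentSeries M`. Extend to `H`: `H` is the field of fractions of `VR v` (`f = g / t ^ m`),
either with `IsFractionRing.lift` (`IsFractionRing (VR v) H`) or by hand:
`e f = e0 (f * t ^ m) * single (-m) 1` for `m` large. The coefficients stay in `k`. -/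
theorem exists_laurent (M : Type) [Field M] [Algebra k M] (v : Place k H) (hv : Rat v) :
    ∃ e : H →+* LaurentSeries M,
      (∀ c : k, e (algebraMap k H c) = HahnSeries.C (algebraMap k M c)) ∧
      (∀ f, f ≠ 0 → (e f).order = v.ord f) ∧
      ∀ f n, ∃ c : k, (e f).coeff n = algebraMap k M c := by
  obtain ⟨vl, hvl⟩ := b0_vl v hv
  obtain ⟨t, ht⟩ := v.exists_uniformizer
  obtain ⟨nx, hnx⟩ := b0_nx hvl ht
  obtain ⟨e0, hC, hord, hco, hX⟩ := b0_expand M ht hvl hnx
  have ht0 : t ≠ 0 := by
    rintro rfl
    rw [v.ord_zero] at ht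
    norm_num at ht
  have htr : v.Reg t := Or.inr (by rw [ht]; norm_num)
  have hmul : ∀ f : H, ∃ (m : ℕ) (a : VR v), f * t ^ m = (a : H) := by
    intro f
    by_cases hf : f = 0
    · exact ⟨0, 0, by rw [hf, zero_mul, Subring.coe_zero]⟩
    · refine ⟨(v.ord f).natAbs, ⟨f * t ^ (v.ord f).natAbs, Or.inr ?_⟩, rfl⟩
      rw [v.ord_mul _ _ hf (pow_ne_zero _ ht0), v.ord_pow, ht]
      omega
  have hinj : Function.Injective e0 := by
    rw [injective_iff_map_eq_zero]
    intro f hf
    by_contra h
    exact (hord f (fun h' => h (Subtype.ext h'))).1 hf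
  have hfr : IsFractionRing (VR v) H := by
    have hfs : FaithfulSMul (VR v) H :=
      (faithfulSMul_iff_algebraMap_injective (VR v) H).2 Subtype.val_injective
    refine IsFractionRing.of_field (VR v) H fun z => ?_
    obtain ⟨m, a, h⟩ := hmul z
    refine ⟨a, ⟨t, htr⟩ ^ m, ?_⟩
    rw [map_pow, eq_div_iff]
    · exact h
    · exact pow_ne_zero _ ht0
  let e : H →+* LaurentSeries M := IsFractionRing.lift (A := VR v) hinj
  have he : ∀ a : VR v, e (a : H) = e0 a := fun a => IsFractionRing.lift_algebraMap hinj a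
  have het : e t = HahnSeries.single 1 1 := by
    have h1 := he ⟨t, htr⟩
    rw [hX ⟨t, htr⟩ rfl] at h1
    exact h1
  have hem : ∀ m : ℕ, e t ^ m = HahnSeries.single (m : ℤ) 1 := by
    intro m
    rw [het, HahnSeries.single_pow]
    simp
  refine ⟨e, ?_, ?_, ?_⟩
  · intro c
    exact (he (cst v c)).trans (hC c)
  · intro f hf
    obtain ⟨m, a, h⟩ := hmul f
    have ha : (a : H) ≠ 0 := by
      rw [← h]
      exact mul_ne_zero hf (pow_ne_zero _ ht0)
    have hef : e f ≠ 0 := by
      rw [Ne, map_eq_zero]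
      exact hf
    have h1 : e f * HahnSeries.single (m : ℤ) 1 = e0 a := by
      rw [← hem, ← map_pow, ← map_mul, h, he]
    have h2 : (e f).order + m = v.ord (a : H) := by
      rw [← (hord a ha).2, ← h1, HahnSeries.order_mul hef (by
        rw [Ne, HahnSeries.single_eq_zero_iff]
        exact one_ne_zero), HahnSeries.order_single one_ne_zero]
    rw [← h, v.ord_mul _ _ hf (pow_ne_zero _ ht0), v.ord_pow, ht, mul_one] at h2
    exact add_right_cancel h2
  · intro f n
    obtain ⟨m, a, h⟩ := hmul f
    have h1 : e f * HahnSeries.single (m : ℤ) 1 = e0 a := by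
      rw [← hem, ← map_pow, ← map_mul, h, he]
    obtain ⟨c, hc⟩ := hco a (n + m)
    refine ⟨c, ?_⟩
    rw [← hc, ← h1, HahnSeries.coeff_mul_single_add, mul_one]

end Pool.Agent.LibCHd
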