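import Pool.Agent.LibCHd.Cps

/-!
[B1] `H ⊗ M` embeds in the Laurent series over `M`; [B2] the compositum.
-/

open Pool.Agent.LibBH2
open scoped Classical TensorProduct

namespace Pool.Agent.LibCHd

variable {k : Type} [Field k] {H M : Type} [Field H] [Algebra k H] [Field M] [Algebra k M]

theorem b1_lift {A : Type} [CommRing A] (e : H →+* A) (g : M →+* A)
    (hk : ∀ c : k, e (algebraMap k H c) = g (algebraMap k M c)) :
    ∃ Φ : H ⊗[k] M →+* A, ∀ f m, Φ (f ⊗ₜ m) = e f * g m := by
  let algA : Algebra k A := (g.comp (algebraMap k M)).toAlgebra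
  let e' : H →ₐ[k] A := { e with commutes' := fun c => hk c }
  let g' : M →ₐ[k] A := { g with commutes' := fun c => rfl }
  refine ⟨(Algebra.TensorProduct.lift e' g' (fun _ _ => Commute.all _ _)).toRingHom, ?_⟩
  intro f m
  exact Algebra.TensorProduct.lift_tmul e' g' _ f m

/-- [B1] `H ⊗ M → LaurentSeries M` as a ring homomorphism: it exists and is injective.

Proof. Construction: `letI : Algebra k (LaurentSeries M) :=
((HahnSeries.C : M →+* LaurentSeries M).comp (algebraMap k M)).toAlgebra` (do not use the instances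
of Mathlib, there are two of them) and `Algebra.TensorProduct.lift` of the algebra homomorphisms given
by `e` and `HahnSeries.C`. Injectivity: let `x` in `H ⊗ M` have image `0`. Write `x = ∑ f_l ⊗ m_l`
with `m_l` linearly independent over `k` (a basis of `M`: `TensorProduct.equivFinsuppOfBasisRight`).
For all `n` the `n`-th coefficient of the image is `∑ c_(l,n) m_l` with `c_(l,n)` in `k` (the
coefficients of `e f_l`), so all `c_(l,n) = 0`, so `e f_l = 0`, so `f_l = 0` (`e` is injective,
`H` is a field). -/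
theorem exists_phiL (e : H →+* LaurentSeries M)
    (hk : ∀ c : k, e (algebraMap k H c) = HahnSeries.C (algebraMap k M c))
    (he : ∀ f n, ∃ c : k, (e f).coeff n = algebraMap k M c) :
    ∃ Φ : H ⊗[k] M →+* LaurentSeries M, Function.Injective Φ ∧
      ∀ f m, Φ (f ⊗ₜ m) = e f * HahnSeries.C m := by
  obtain ⟨Φ, hΦ⟩ := b1_lift e (HahnSeries.C : M →+* LaurentSeries M) hk
  refine ⟨Φ, ?_, hΦ⟩
  rw [injective_iff_map_eq_zero]
  intro x hx
  set b := Module.Basis.ofVectorSpace k M with hb
  obtain ⟨c, rfl⟩ := TensorProduct.eq_repr_basis_right b x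
  rw [Finsupp.sum, map_sum] at hx
  choose u hu using he
  have h1 : ∀ n : ℤ, ∀ l ∈ c.support, u (c l) n = 0 := by
    intro n
    have h2 := congrArg (fun P => HahnSeries.coeff P n) hx
    simp only [HahnSeries.coeff_sum, HahnSeries.coeff_zero] at h2
    have h3 : ∑ l ∈ c.support, u (c l) n • b l = 0 := by
      rw [← h2]
      refine Finset.sum_congr rfl fun l _ => ?_
      rw [hΦ, mul_comm, HahnSeries.C_mul_eq_smul, HahnSeries.coeff_smul, hu, smul_eq_mul,
        Algebra.smul_def, mul_comm]
    exact linearIndependent_iff'.1 b.linearIndependent _ _ h3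
  have h4 : ∀ l ∈ c.support, c l = 0 := by
    intro l hl
    have h5 : e (c l) = 0 := by
      ext n
      rw [hu, h1 n l hl, map_zero, HahnSeries.coeff_zero]
    exact (map_eq_zero e).1 h5
  rw [Finsupp.sum]
  refine Finset.sum_eq_zero fun l hl => ?_
  rw [h4 l hl, TensorProduct.zero_tmul]

/-- [B2] Proof. By [B1] `H ⊗[k] M` is a domain (it embeds in the field `LaurentSeries M`); take
`K = FractionRing (H ⊗[k] M)` with the obvious maps (`Algebra.TensorProduct.includeLeft`,
`includeRight`); `phi i j` is `algebraMap (H ⊗[k] M) K`. -/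
theorem exists_cps (e : H →+* LaurentSeries M)
    (hk : ∀ c : k, e (algebraMap k H c) = HahnSeries.C (algebraMap k M c))
    (he : ∀ f n, ∃ c : k, (e f).coeff n = algebraMap k M c) :
    ∃ (K : Type) (_ : Field K) (_ : Algebra k K) (i : H →ₐ[k] K) (j : M →ₐ[k] K), IsCps i j := by
  obtain ⟨Φ, hΦ, -⟩ := exists_phiL e hk he
  have : IsDomain (H ⊗[k] M) := hΦ.isDomain Φ
  refine ⟨FractionRing (H ⊗[k] M), inferInstance, inferInstance,
    (IsScalarTower.toAlgHom k (H ⊗[k] M) (FractionRing (H ⊗[k] M))).comp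
      Algebra.TensorProduct.includeLeft,
    (IsScalarTower.toAlgHom k (H ⊗[k] M) (FractionRing (H ⊗[k] M))).comp
      Algebra.TensorProduct.includeRight, ?_⟩
  set i := (IsScalarTower.toAlgHom k (H ⊗[k] M) (FractionRing (H ⊗[k] M))).comp
      (Algebra.TensorProduct.includeLeft : H →ₐ[k] H ⊗[k] M) with hi
  set j := (IsScalarTower.toAlgHom k (H ⊗[k] M) (FractionRing (H ⊗[k] M))).comp
      (Algebra.TensorProduct.includeRight : M →ₐ[k] H ⊗[k] M) with hj
  have h1 : ∀ x, phi i j x = algebraMap (H ⊗[k] M) (FractionRing (H ⊗[k] M)) x := by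
    have h2 : phi i j = IsScalarTower.toAlgHom k (H ⊗[k] M) (FractionRing (H ⊗[k] M)) := by
      ext f
      · simp [hi]
      · simp [hj]
    intro x
    rw [h2]
    rfl
  constructor
  · intro x y hxy
    rw [h1, h1] at hxy
    exact IsFractionRing.injective _ _ hxy
  · intro z
    obtain ⟨⟨a, b⟩, h2⟩ := IsLocalization.surj (nonZeroDivisors (H ⊗[k] M)) z
    refine ⟨a, b, ?_, ?_⟩
    · rw [h1]
      exact IsFractionRing.to_map_ne_zero_of_mem_nonZeroDivisors b.2
    · rw [h1, h1]
      exact h2

end Pool.Agent.LibCHd
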