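import Pool.Agent.LibCHd.FunFrac

/-!
[B5d] the compositum is a function field of dimension `d + 1`.
-/

open Pool.Agent.LibBH2
open scoped Classical TensorProduct

namespace Pool.Agent.LibCHd

variable {k : Type} [Field k] {H M K : Type} [Field H] [Algebra k H] [Field M] [Algebra k M]
  [Field K] [Algebra k K]

theorem IsCps.adjoin_eq_top {i : H →ₐ[k] K} {j : M →ₐ[k] K} (hc : IsCps i j) :
    IntermediateField.adjoin k (Set.range i ∪ Set.range j) = ⊤ := by
  rw [eq_top_iff]
  intro x _
  set L := IntermediateField.adjoin k (Set.range i ∪ Set.range j)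
  have h1 : ∀ a : H ⊗[k] M, phi i j a ∈ L := by
    intro a
    induction a using TensorProduct.induction_on with
    | zero => rw [map_zero]; exact L.zero_mem
    | tmul h m =>
      rw [phi_tmul]
      exact L.mul_mem (IntermediateField.subset_adjoin _ _ (Or.inl ⟨h, rfl⟩))
        (IntermediateField.subset_adjoin _ _ (Or.inr ⟨m, rfl⟩))
    | add a b ha hb => rw [map_add]; exact L.add_mem ha hb
  obtain ⟨a, b, hb, h⟩ := hc.gen x
  rw [← eq_div_iff hb] at h
  rw [h]
  exact L.div_mem (h1 a) (h1 b)

open Polynomial in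
theorem IsCps.eval₂_ne_zero {i : H →ₐ[k] K} {j : M →ₐ[k] K} (hc : IsCps i j) (s : H)
    (hs : Transcendental k s) (G : Polynomial M) (hG : G ≠ 0) :
    Polynomial.eval₂ (j : M →+* K) (i s) G ≠ 0 := by
  let f : k[X] ⊗[k] M →ₐ[k] H ⊗[k] M :=
    Algebra.TensorProduct.map (Polynomial.aeval s) (AlgHom.id k M)
  have hf : Function.Injective f := by
    have h1 : Function.Injective (Polynomial.aeval s : k[X] →ₐ[k] H) :=
      transcendental_iff_injective.1 hs
    exact Module.Flat.rTensor_preserves_injective_linearMap (M := M)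
      (Polynomial.aeval s : k[X] →ₐ[k] H).toLinearMap h1
  let g : M[X] →ₐ[k] H ⊗[k] M :=
    (f.comp (Algebra.TensorProduct.comm k M k[X]).toAlgHom).comp (polyEquivTensor k M).toAlgHom
  have hg : Function.Injective g :=
    (hf.comp (Algebra.TensorProduct.comm k M k[X]).injective).comp (polyEquivTensor k M).injective
  have hgC : ∀ m : M, g (C m) = 1 ⊗ₜ m := by
    intro m
    show f ((Algebra.TensorProduct.comm k M k[X]) ((polyEquivTensor k M) (C m))) = _
    rw [polyEquivTensor_apply]
    simp [f]
  have hgX : g X = s ⊗ₜ 1 := by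
    show f ((Algebra.TensorProduct.comm k M k[X]) ((polyEquivTensor k M) X)) = _
    rw [polyEquivTensor_apply]
    simp [f]
  have key : ∀ G : M[X], Polynomial.eval₂ (j : M →+* K) (i s) G = phi i j (g G) := by
    intro G
    induction G using Polynomial.induction_on' with
    | add p q hp hq => rw [Polynomial.eval₂_add, hp, hq, map_add, map_add]
    | monomial n a =>
      rw [Polynomial.eval₂_monomial, ← C_mul_X_pow_eq_monomial, map_mul, map_pow, hgC, hgX,
        map_mul, map_pow, phi_tmul, phi_tmul, map_one, map_one, one_mul, mul_one]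
      rfl
  rw [key]
  intro h0
  have h1 : g G = 0 := hc.inj (by rw [h0, map_zero])
  exact hG (hg (by rw [h1, map_zero]))

/-- [B5d] the compositum is a function field of dimension `d + 1`. -/
theorem IsCps.funF {d : ℕ} (i : H →ₐ[k] K) (j : M →ₐ[k] K) (hc : IsCps i j) (hH : FunF k 1 H)
    (hM : FunF k d M) : FunF k (d + 1) K :=
  funF_succ i j hH hM hc.adjoin_eq_top fun s hs G hG => hc.eval₂_ne_zero s hs G hG

end Pool.Agent.LibCHd
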