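import Pool.Agent.LibCHd.B0
import Pool.Agent.LibCHd.B1

/-!
[B3] the Gauss place.
-/

open Pool.Agent.LibBH2
open scoped Classical TensorProduct

namespace Pool.Agent.LibCHd

variable {k : Type} [Field k] {H M K : Type} [Field H] [Algebra k H] [Field M] [Algebra k M]
  [Field K] [Algebra k K]

/-- extension of an injective map of `H ⊗ M` to the compositum. -/
theorem B3_lift (i : H →ₐ[k] K) (j : M →ₐ[k] K) (hc : IsCps i j) {L : Type} [Field L]
    (Φ : H ⊗[k] M →+* L) (hΦ : Function.Injective Φ) :
    ∃ ψ : K →+* L, ∀ a, ψ (phi i j a) = Φ a := by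
  let _ : Algebra (H ⊗[k] M) K := (phi i j).toRingHom.toAlgebra
  have hal : ∀ a, algebraMap (H ⊗[k] M) K a = phi i j a := fun _ => rfl
  have _ : IsDomain (H ⊗[k] M) := hc.inj.isDomain (phi i j).toRingHom
  have hne : ∀ a : H ⊗[k] M, a ≠ 0 → phi i j a ≠ 0 := fun a ha h =>
    ha (hc.inj (by rw [h, map_zero]))
  have _ : IsLocalization (nonZeroDivisors (H ⊗[k] M)) K := by
    rw [isLocalization_iff]
    refine ⟨fun y => ?_, fun z => ?_, fun {x y} h => ?_⟩
    · rw [hal]
      exact (hne _ (nonZeroDivisors.ne_zero y.2)).isUnit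
    · obtain ⟨a, b, hb, hz⟩ := hc.gen z
      have hb0 : b ≠ 0 := by
        rintro rfl
        exact hb (map_zero _)
      exact ⟨(a, ⟨b, mem_nonZeroDivisors_of_ne_zero hb0⟩), hz⟩
    · rw [hal, hal] at h
      exact ⟨1, by rw [hc.inj h]⟩
  have hg : ∀ y : nonZeroDivisors (H ⊗[k] M), IsUnit (Φ y) := fun y => by
    refine IsUnit.mk0 _ fun h => nonZeroDivisors.ne_zero y.2 (hΦ ?_)
    rw [h, map_zero]
  refine ⟨IsLocalization.lift hg, fun a => ?_⟩
  rw [← hal]
  exact IsLocalization.lift_eq hg a

/-- [B3] Proof. Take `e` from `exists_laurent M v hv` and `Phi` from `exists_phiL`, injective.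
Since `K` is the field of fractions of `H ⊗ M` (`hc`), there is a ring homomorphism
`psi : K → LaurentSeries M` with `psi (phi i j a) = Phi a` (`psi z = Phi a / Phi b`; or make `K` an
`H ⊗ M`-algebra by `(phi i j).toRingHom.toAlgebra`, `IsFractionRing`, `IsFractionRing.lift`). Put
`w.ord z = (psi z).order` (`LibBH2/Exist.lean` has `Place.ofHom` for a similar case; order `0` for
`z = 0`). Then `psi (i f) = e f` has order `v.ord f`, `psi (j m)` is a constant: order `0`.
Uniformizer: `i t`, `v.ord t = 1`. If `w.Reg z`, `m = ` the coefficient of degree `0` of `psi z`: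
`psi (z - j m)` has no coefficients in degrees `≤ 0`, so it is `0` (then `z = j m`) or has positive
order. -/
theorem exists_gs (i : H →ₐ[k] K) (j : M →ₐ[k] K) (hc : IsCps i j) (v : Place k H) (hv : Rat v) :
    ∃ w : Place k K, IsGs i j v w := by
  obtain ⟨e, he1, he2, he3⟩ := exists_laurent M v hv
  obtain ⟨Φ, hinj, hΦ⟩ := exists_phiL e he1 he3
  obtain ⟨ψ, hψ⟩ := B3_lift i j hc Φ hinj
  have hH : ∀ f, ψ (i f) = e f := fun f => by
    have h1 : i f = phi i j (f ⊗ₜ 1) := by rw [phi_tmul, map_one, mul_one]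
    rw [h1, hψ, hΦ, map_one, mul_one]
  have hM : ∀ m, ψ (j m) = HahnSeries.C m := fun m => by
    have h1 : j m = phi i j (1 ⊗ₜ m) := by rw [phi_tmul, map_one, one_mul]
    rw [h1, hψ, hΦ, map_one, one_mul]
  have hC : ∀ m : M, (HahnSeries.C m : LaurentSeries M).order = 0 := fun m => HahnSeries.order_C
  let w : Place k K :=
    { ord := fun z => (ψ z).order
      ord_zero := by rw [map_zero, HahnSeries.order_zero]
      ord_mul := fun f g hf hg => by
        rw [map_mul, HahnSeries.order_mul ((map_ne_zero ψ).2 hf) ((map_ne_zero ψ).2 hg)]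
      ord_add := fun f g hf hg hfg => by
        rw [map_add]
        apply HahnSeries.min_order_le_order_add
        rw [← map_add]
        exact (map_ne_zero ψ).2 hfg
      ord_const := fun c _ => by
        rw [← AlgHom.commutes j, hM, hC]
      exists_uniformizer := by
        obtain ⟨t, ht⟩ := v.exists_uniformizer
        have ht0 : t ≠ 0 := by
          rintro rfl
          rw [v.ord_zero] at ht
          exact zero_ne_one ht
        exact ⟨i t, by rw [hH, he2 t ht0, ht]⟩ }
  refine ⟨w, ⟨fun f => ?_, fun m => ?_, fun z hz => ?_⟩⟩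
  · show (ψ (i f)).order = v.ord f
    by_cases hf : f = 0
    · rw [hf, map_zero, map_zero, HahnSeries.order_zero, v.ord_zero]
    · rw [hH, he2 f hf]
  · show (ψ (j m)).order = 0
    rw [hM, hC]
  · refine ⟨(ψ z).coeff 0, ?_⟩
    by_cases h0 : z - j ((ψ z).coeff 0) = 0
    · exact Or.inl h0
    · refine Or.inr ?_
      show 0 < (ψ (z - j ((ψ z).coeff 0))).order
      set x : LaurentSeries M := ψ (z - j ((ψ z).coeff 0)) with hx
      have hx0 : x ≠ 0 := (map_ne_zero ψ).2 h0
      by_contra hneg
      have h1 : x.coeff x.order ≠ 0 := fun h => hx0 (HahnSeries.coeff_order_eq_zero.1 h)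
      apply h1
      have h2 : x = ψ z - HahnSeries.C ((ψ z).coeff 0) := by rw [hx, map_sub, hM]
      have h3 : ∀ n, x.coeff n = (ψ z).coeff n -
          (HahnSeries.C ((ψ z).coeff 0) : LaurentSeries M).coeff n := fun n => by
        rw [h2, HahnSeries.coeff_sub]
      rw [h3]
      rcases lt_or_eq_of_le (not_lt.1 hneg) with h4 | h4
      · have h5 : (ψ z).coeff x.order = 0 := by
          rcases hz with hz | hz
          · rw [hz, map_zero, HahnSeries.coeff_zero]
          · exact HahnSeries.coeff_eq_zero_of_lt_order (lt_of_lt_of_le h4 hz)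
        rw [h5, HahnSeries.C_apply, HahnSeries.coeff_single_of_ne h4.ne, sub_zero]
      · rw [h4, HahnSeries.C_apply, HahnSeries.coeff_single_same, sub_self]

end Pool.Agent.LibCHd
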