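import Pool.Agent.LibCHd.Cps

/-!
[B4] restriction of places, and uniqueness of the Gauss place.
-/

open Pool.Agent.LibBH2
open scoped Classical TensorProduct

namespace Pool.Agent.LibCHd

variable {k : Type} [Field k] {H M K : Type} [Field H] [Algebra k H] [Field M] [Algebra k M]
  [Field K] [Algebra k K]

/-- [B4a] restriction of a place to a subfield on which it is not trivial. Proof. The values
`w.ord (i f)`, `f ≠ 0`, form a nonzero subgroup of the integers, generated by some `e > 0`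
(`Int.subgroup_cyclic` / `AddSubgroup`); `v.ord f = w.ord (i f) / e`. -/
theorem exists_restrict (i : H →ₐ[k] K) (w : Place k K) (φ : H) (hφ : w.ord (i φ) ≠ 0) :
    ∃ (v : Place k H) (e : ℕ), 0 < e ∧ ∀ f, w.ord (i f) = e * v.ord f := by
  have hi : ∀ f : H, f ≠ 0 → i f ≠ 0 := fun f hf => (map_ne_zero i).2 hf
  let A : AddSubgroup ℤ :=
    { carrier := {n | ∃ f : H, f ≠ 0 ∧ w.ord (i f) = n}
      add_mem' := by
        rintro a b ⟨f, hf, rfl⟩ ⟨g, hg, rfl⟩
        exact ⟨f * g, mul_ne_zero hf hg, by rw [map_mul, w.ord_mul _ _ (hi f hf) (hi g hg)]⟩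
      zero_mem' := ⟨1, one_ne_zero, by rw [map_one, w.ord_one]⟩
      neg_mem' := by
        rintro a ⟨f, hf, rfl⟩
        exact ⟨f⁻¹, inv_ne_zero hf, by rw [map_inv₀, w.ord_inv]⟩ }
  obtain ⟨a, ha⟩ := Int.subgroup_cyclic A
  have hA : ∀ n, n ∈ A ↔ a ∣ n := by
    intro n
    rw [ha, AddSubgroup.mem_closure_singleton]
    constructor
    · rintro ⟨m, rfl⟩
      exact ⟨m, by simp [mul_comm]⟩
    · rintro ⟨m, rfl⟩
      exact ⟨m, by simp [mul_comm]⟩
  have hφ0 : φ ≠ 0 := by
    rintro rfl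
    rw [map_zero, w.ord_zero] at hφ
    exact hφ rfl
  have ha0 : a ≠ 0 := by
    rintro rfl
    have h1 : w.ord (i φ) ∈ A := ⟨φ, hφ0, rfl⟩
    rw [hA, zero_dvd_iff] at h1
    exact hφ h1
  have he : (0 : ℤ) < (a.natAbs : ℤ) := by
    have := Int.natAbs_pos.2 ha0
    exact_mod_cast this
  have hd : ∀ f : H, ∃ n : ℤ, w.ord (i f) = (a.natAbs : ℤ) * n := by
    intro f
    by_cases hf : f = 0
    · exact ⟨0, by rw [hf, map_zero, w.ord_zero, mul_zero]⟩
    · have h1 : w.ord (i f) ∈ A := ⟨f, hf, rfl⟩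
      rw [hA] at h1
      obtain ⟨n, hn⟩ := Int.natAbs_dvd.2 h1
      exact ⟨n, hn⟩
  choose o ho using hd
  have hcan : ∀ x y : ℤ, (a.natAbs : ℤ) * x = (a.natAbs : ℤ) * y → x = y := by
    intro x y h
    exact mul_left_cancel₀ he.ne' h
  refine ⟨{ ord := o, ord_zero := ?_, ord_mul := ?_, ord_add := ?_, ord_const := ?_,
            exists_uniformizer := ?_ }, a.natAbs, by exact_mod_cast he, ho⟩
  · apply hcan
    rw [← ho, map_zero, w.ord_zero, mul_zero]
  · intro f g hf hg
    apply hcan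
    rw [mul_add, ← ho, ← ho, ← ho, map_mul, w.ord_mul _ _ (hi f hf) (hi g hg)]
  · intro f g hf hg hfg
    have h1 := w.ord_add (i f) (i g) (hi f hf) (hi g hg) (by rw [← map_add]; exact hi _ hfg)
    rw [← map_add, ho, ho, ho] at h1
    rcases min_le_iff.1 h1 with h | h
    · exact (min_le_left _ _).trans (le_of_mul_le_mul_left h he)
    · exact (min_le_right _ _).trans (le_of_mul_le_mul_left h he)
  · intro c hc
    apply hcan
    rw [← ho, AlgHom.commutes, w.ord_const c hc, mul_zero]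
  · have h1 : (a.natAbs : ℤ) ∈ A := by
      rw [hA]
      exact Int.dvd_natAbs.2 dvd_rfl
    obtain ⟨f, hf, h2⟩ := h1
    refine ⟨f, ?_⟩
    apply hcan
    rw [← ho, h2, mul_one]

theorem gs_aux (i : H →ₐ[k] K) (j : M →ₐ[k] K) (v : Place k H) (hv : Rat v)
    (b : H ⊗[k] M) (hb : b ≠ 0) :
    ∃ n : ℤ, ∀ (w : Place k K) (e : ℕ), 0 < e → (∀ f, w.ord (i f) = e * v.ord f) →
      (∀ m, w.ord (j m) = 0) → w.ord (phi i j b) = e * n := by
  obtain ⟨c, hc⟩ := TensorProduct.eq_repr_basis_right (Module.Basis.ofVectorSpace k M) b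
  set B := Module.Basis.ofVectorSpace k M with hB
  have hc0 : c.support.Nonempty := by
    rw [Finsupp.support_nonempty_iff]
    rintro rfl
    apply hb
    rw [← hc]
    simp
  obtain ⟨l0, hl0, hmin⟩ := Finset.exists_min_image c.support (fun l => v.ord (c l)) hc0
  have hf0 : c l0 ≠ 0 := Finsupp.mem_support_iff.1 hl0
  refine ⟨v.ord (c l0), ?_⟩
  have hreg : ∀ l, v.Reg (c l / c l0) := by
    intro l
    by_cases hl : c l = 0
    · left
      rw [hl, zero_div]
    · right
      rw [v.ord_div _ _ hl hf0]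
      have := hmin l (Finsupp.mem_support_iff.2 hl)
      omega
  have hval : ∀ l, ∃ d : k, v.Zer (c l / c l0 - algebraMap k H d) := fun l => hv _ (hreg l)
  choose d hd using hval
  have hd0 : d l0 ≠ 0 := by
    intro h
    have h1 := hd l0
    rw [h, map_zero, sub_zero, div_self hf0] at h1
    rcases h1 with h1 | h1
    · exact one_ne_zero h1
    · rw [v.ord_one] at h1
      exact lt_irrefl _ h1
  set m : M := ∑ l ∈ c.support, d l • B l with hm
  have hm0 : m ≠ 0 := by
    intro h
    have := (linearIndependent_iff'.1 B.linearIndependent) c.support d (by rw [← hm, h]) l0 hl0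
    exact hd0 this
  intro w e he hw hwM
  have hZi : ∀ x : H, v.Zer x → w.Zer (i x) := by
    intro x hx
    rcases hx with hx | hx
    · left
      rw [hx, map_zero]
    · right
      rw [hw]
      have : (0 : ℤ) < e := by exact_mod_cast he
      positivity
  have hRj : ∀ x : M, w.Reg (j x) := fun x => Or.inr (by rw [hwM])
  set z' : K := ∑ l ∈ c.support, i (c l / c l0) * j (B l) with hz'
  have hphi : phi i j b = i (c l0) * z' := by
    rw [← hc, Finsupp.sum, map_sum, hz', Finset.mul_sum]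
    refine Finset.sum_congr rfl fun l _ => ?_
    rw [phi_tmul, ← mul_assoc, ← map_mul, mul_div_cancel₀ _ hf0]
  have hdiff : w.Zer (z' - j m) := by
    have h1 : z' - j m = ∑ l ∈ c.support, i (c l / c l0 - algebraMap k H (d l)) * j (B l) := by
      rw [hz', hm, map_sum, ← Finset.sum_sub_distrib]
      refine Finset.sum_congr rfl fun l _ => ?_
      rw [map_smul, map_sub, AlgHom.commutes, Algebra.smul_def]
      ring
    rw [h1]
    refine Finset.sum_induction _ (fun x => w.Zer x) (fun x y hx hy => hx.add hy) w.zer_zero ?_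
    intro l _
    exact (hZi _ (hd l)).mul_reg (hRj _)
  have hjm : j m ≠ 0 := (map_ne_zero j).2 hm0
  have hz'0 : z' ≠ 0 ∧ w.ord z' = 0 := by
    rcases hdiff with h | h
    · rw [sub_eq_zero] at h
      rw [h]
      exact ⟨hjm, hwM m⟩
    · by_cases h0 : z' - j m = 0
      · rw [sub_eq_zero] at h0
        rw [h0]
        exact ⟨hjm, hwM m⟩
      · have h2 := w.ord_add_of_lt hjm h0 (by rw [hwM]; exact h)
        rw [add_sub_cancel] at h2
        exact ⟨h2.1, by rw [h2.2, hwM]⟩
  rw [hphi, w.ord_mul _ _ ((map_ne_zero i).2 hf0) hz'0.1, hz'0.2, hw, add_zero]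

/-- [B4b] Proof. Let `e > 0`, `w.ord (i f) = e v.ord f`, `w.ord (j m) = 0`, and `w0` the Gauss place.
Claim: `w.ord z = e * w0.ord z` for all `z`. By `hc.gen` and multiplicativity it is enough to take
`z = phi i j b`, `b ≠ 0`. Write `b = ∑ f_l ⊗ m_l` with `m_l` linearly independent over `k`, choose
`l0` with `f_l0 ≠ 0` and `v.ord f_l0` minimal among the nonzero `f_l`; then `z = i f_l0 * z'`,
`z' = ∑ i g_l j m_l`, `g_l = f_l / f_l0` regular, of value `c_l` in `k` (`hv`), `c_l0 = 1`. So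
`z' - j (∑ c_l m_l)` is a sum of terms `i (g_l - c_l) j m_l` which are zero at `w` and at `w0`
(use `Place.Zer.mul_reg`, `Place.Zer.add`), and `m = ∑ c_l m_l ≠ 0` by linear independence, so `j m`
has order `0` at both places: `w.ord z' = 0 = w0.ord z'`. Hence
`w.ord z = w.ord (i f_l0) = e v.ord f_l0 = e w0.ord (i f_l0) = e w0.ord z`.
Since `w` is normalised (`w.exists_uniformizer`), `e = 1`, and `w = w0` by `Place.ext'`. -/
theorem gs_unique (i : H →ₐ[k] K) (j : M →ₐ[k] K) (hc : IsCps i j) (v : Place k H) (hv : Rat v)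
    (w0 : Place k K) (h0 : IsGs i j v w0) (w : Place k K) (e : ℕ) (he : 0 < e)
    (hw : ∀ f, w.ord (i f) = e * v.ord f) (hwM : ∀ m, w.ord (j m) = 0) :
    w = w0 := by
  have hmain : ∀ z : K, w.ord z = e * w0.ord z := by
    intro z
    by_cases hz : z = 0
    · rw [hz, w.ord_zero, w0.ord_zero, mul_zero]
    obtain ⟨a, b, hb, hab⟩ := hc.gen z
    have hb0 : b ≠ 0 := by
      rintro rfl
      exact hb (map_zero _)
    have hpa : phi i j a ≠ 0 := by
      rw [← hab]
      exact mul_ne_zero hz hb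
    have ha0 : a ≠ 0 := by
      rintro rfl
      exact hpa (map_zero _)
    obtain ⟨na, hna⟩ := gs_aux i j v hv a ha0
    obtain ⟨nb, hnb⟩ := gs_aux i j v hv b hb0
    have h1 : ∀ (w' : Place k K) (e' : ℕ), 0 < e' → (∀ f, w'.ord (i f) = e' * v.ord f) →
        (∀ m, w'.ord (j m) = 0) → w'.ord z = e' * (na - nb) := by
      intro w' e' he' hw' hwM'
      have h2 := hna w' e' he' hw' hwM'
      have h3 := hnb w' e' he' hw' hwM'
      rw [← hab, w'.ord_mul _ _ hz hb, h3] at h2
      linear_combination h2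
    rw [h1 w e he hw hwM, h1 w0 1 one_pos (fun f => by rw [h0.onH]; simp) h0.onM]
    push_cast
    ring
  obtain ⟨t, ht⟩ := w.exists_uniformizer
  have h1 : (e : ℤ) ∣ 1 := ⟨w0.ord t, by rw [← ht]; exact hmain t⟩
  have h2 : e = 1 := by
    have h3 : e ∣ 1 := by exact_mod_cast h1
    exact Nat.dvd_one.1 h3
  refine Place.ext' fun z => ?_
  rw [hmain z, h2]
  simp

end Pool.Agent.LibCHd
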