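import Pool.Agent.LibCHd.Cps

/-!
[B6] the residue field of the Gauss place is `M`; [B7] cycles do not depend on the choice of the
field up to isomorphism.
-/

open WeierstrassCurve Pool.Agent.LibBH2 Pool.Agent.LibIG50
open scoped Classical TensorProduct

namespace Pool.Agent.LibCHd

variable {k : Type} [Field k]

/-- [B6] Proof. `j m` is regular for all `m` (`w.ord (j m) = 0`), so `m ↦ class of (j m)` is a
`k`-algebra homomorphism `M → RF w` (the algebra structure of `RF w` is by `cst`), injective since `M`
is a field, surjective by `hres`. -/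
theorem exists_res_equiv {M K : Type} [Field M] [Algebra k M] [Field K] [Algebra k K]
    (j : M →ₐ[k] K) (w : Place k K) (hM : ∀ m, w.ord (j m) = 0)
    (hres : ∀ z, w.Reg z → ∃ m, w.Zer (z - j m)) :
    ∃ ε : M ≃ₐ[k] RF w, ∀ m, Red w (j m) (ε m) := by
  have hreg : ∀ m, j m ∈ VR w := fun m => Or.inr (by rw [hM])
  let f0 : M →+* VR w :=
    { toFun := fun m => ⟨j m, hreg m⟩
      map_one' := Subtype.ext (map_one j)
      map_mul' := fun a b => Subtype.ext (map_mul j a b)
      map_zero' := Subtype.ext (map_zero j)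
      map_add' := fun a b => Subtype.ext (map_add j a b) }
  let f1 : M →+* RF w := (IsLocalRing.residue (VR w)).comp f0
  let f : M →ₐ[k] RF w :=
    { f1 with
      commutes' := by
        intro c
        change IsLocalRing.residue (VR w) (f0 (algebraMap k M c)) = _
        have h1 : f0 (algebraMap k M c) = cst w c := Subtype.ext (j.commutes c)
        rw [h1]
        rfl }
  have hf : ∀ m, f m = IsLocalRing.residue (VR w) ⟨j m, hreg m⟩ := fun m => rfl
  have hinj : Function.Injective f := f.toRingHom.injective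
  have hsurj : Function.Surjective f := by
    intro c
    obtain ⟨z, rfl⟩ := IsLocalRing.residue_surjective (R := VR w) c
    obtain ⟨m, hm⟩ := hres z z.2
    refine ⟨m, ?_⟩
    rw [hf, eq_comm, ← sub_eq_zero, ← map_sub, IsLocalRing.residue_eq_zero_iff,
      IsLocalRing.mem_maximalIdeal]
    intro hu
    obtain ⟨g, hg⟩ := hu.exists_right_inv
    have h1 : ((z : K) - j m) * (g : K) = 1 := by
      have := congrArg (Subtype.val) hg
      simpa using this
    have h2 : w.Zer (((z : K) - j m) * (g : K)) := hm.mul_reg g.2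
    rw [h1] at h2
    rcases h2 with h2 | h2
    · exact one_ne_zero h2
    · rw [w.ord_one] at h2
      exact lt_irrefl _ h2
  exact ⟨AlgEquiv.ofBijective f ⟨hinj, hsurj⟩, fun m => ⟨hreg m, rfl⟩⟩

variable {r : ℕ} {W : Fin r → WeierstrassCurve k} {Y : Prj k}
variable {M M' : Type} [Field M] [Algebra k M] [Field M'] [Algebra k M']

theorem hc_mp {W : WeierstrassCurve k} (f : M →ₐ[k] M') (P : (W⁄M).toAffine.Point) (a : Fin 3) :
    hc (mp f P) a = f (hc P a) := by
  match P with
  | .zero =>
    have h : mp f (.zero : (W⁄M).toAffine.Point) = .zero := mp_zero f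
    rw [h]
    fin_cases a <;> simp [hc]
  | .some x y h =>
    obtain ⟨h', e⟩ := mp_some f x y h
    rw [e]
    fin_cases a <;> simp [hc]

theorem co_map (f : M →ₐ[k] M') (u : Pnt W Y M) : co (u.map f) = fun q => f (co u q) := by
  funext q
  rcases q with q | a
  · exact hc_mp f (u.z q.1) q.2
  · rfl

/-- [B7a] Proof. `co (u.map f) = f ∘ co u` (case distinction for `hc`, `mp_zero`, `mp_some`), and
`f` is injective. -/
theorem eqs_map (f : M →ₐ[k] M') (u : Pnt W Y M) : eqs (u.map f) = eqs u := by
  have h1 : ∀ F : MvPolynomial (Idx r Y.N) k,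
      MvPolynomial.aeval (co (u.map f)) F = f (MvPolynomial.aeval (co u) F) := by
    intro F
    rw [co_map, ← AlgHom.comp_apply, MvPolynomial.comp_aeval]
  ext F
  change (MHom F ∧ MvPolynomial.aeval (co (u.map f)) F = 0) ↔
    (MHom F ∧ MvPolynomial.aeval (co u) F = 0)
  rw [h1, map_eq_zero]

theorem fld_map (ε : M ≃ₐ[k] M') (u : Pnt W Y M) :
    fld (u.map (ε : M →ₐ[k] M')) = (fld u).map (ε : M →ₐ[k] M') := by
  unfold fld
  rw [IntermediateField.adjoin_map]
  congr 1
  rw [Set.image_union]
  congr 1
  · ext c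
    simp only [Set.mem_ofPred_eq, Set.mem_image]
    constructor
    · rintro ⟨i, a, b, rfl⟩
      refine ⟨_, ⟨i, a, b, rfl⟩, ?_⟩
      rw [map_div₀, ← hc_mp, ← hc_mp]
      rfl
    · rintro ⟨_, ⟨i, a, b, rfl⟩, rfl⟩
      refine ⟨i, a, b, ?_⟩
      rw [map_div₀, ← hc_mp, ← hc_mp]
      rfl
  · ext c
    simp only [Set.mem_ofPred_eq, Set.mem_image]
    constructor
    · rintro ⟨a, b, rfl⟩
      exact ⟨_, ⟨a, b, rfl⟩, by rw [map_div₀]; rfl⟩
    · rintro ⟨_, ⟨a, b, rfl⟩, rfl⟩
      exact ⟨a, b, by rw [map_div₀]; rfl⟩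

/-- [B7b] Proof. `fld (u.map ε)` is the image of `fld u` under `ε` (`IntermediateField.adjoin_map`),
so `finrank (fld (u.map ε)) M' = finrank (fld u) M` (the degree is invariant under isomorphism of
extensions: e.g. `Algebra.finrank_eq_of_equiv_equiv` / `IntermediateField.intermediateFieldMap`). -/
theorem cyc_map (ε : M ≃ₐ[k] M') (u : Pnt W Y M) : cyc (u.map (ε : M →ₐ[k] M')) = cyc u := by
  unfold cyc
  rw [eqs_map, fld_map]
  congr 2
  exact (Algebra.finrank_eq_of_equiv_equiv
    (IntermediateField.intermediateFieldMap ε (fld u)).toRingEquiv ε.toRingEquiv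
    (by ext x; rfl)).symm

theorem mp_const {W : WeierstrassCurve k} (f : M →ₐ[k] M') (a : W.toAffine.Point) :
    mp f (constPt M a) = constPt M' a := by
  match a with
  | .zero => exact mp_zero f
  | .some x y h =>
    obtain ⟨h', e⟩ := mp_some f (algebraMap k M x) (algebraMap k M y)
      ((WeierstrassCurve.Affine.map_nonsingular W (algebraMap k M).injective x y).2 h)
    have e2 : constPt M (.some x y h : W.toAffine.Point) = .some (algebraMap k M x)
      (algebraMap k M y)
      ((WeierstrassCurve.Affine.map_nonsingular W (algebraMap k M).injective x y).2 h) := rfl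
    rw [e2, e]
    have e3 : constPt M' (.some x y h : W.toAffine.Point) = .some (algebraMap k M' x)
      (algebraMap k M' y)
      ((WeierstrassCurve.Affine.map_nonsingular W (algebraMap k M').injective x y).2 h) := rfl
    rw [e3]
    congr 1
    · exact f.commutes x
    · exact f.commutes y

/-- [B7c] translation commutes with base change. Proof. `mp f (constPt M a) = constPt M' a` (cases on
`a`) and `mp f` is additive. -/
theorem trl_map (f : M →ₐ[k] M') (a : Pts W) (u : Pnt W Y M) :
    (trl a u).map f = Pnt.add (fun i => constPt M' (a i)) (u.map f) := by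
  have h : (fun i => mp f (constPt M (a i) + u.z i)) =
      fun i => constPt M' (a i) + mp f (u.z i) := by
    funext i
    rw [map_add, mp_const]
  simp only [Pnt.map, trl, Pnt.add, h]

end Pool.Agent.LibCHd
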