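import Pool.Agent.LibCHd.R6

/-!
[C5] reduction of points of an elliptic curve over subfields.
-/

open WeierstrassCurve Pool.Agent.LibBH2 Pool.Agent.LibIG50
open scoped Classical TensorProduct

namespace Pool.Agent.LibCHd

variable {k : Type} [Field k] {W : WeierstrassCurve k}
variable {H M K : Type} [Field H] [Algebra k H] [Field M] [Algebra k M] [Field K] [Algebra k K]

/-- [C5a] compatibility with the old specialisation (values in `k`) of points over a smaller field -/
theorem SpR_of_Spec (i : H →ₐ[k] K) (v : Place k H) (w : Place k K) (e : ℕ) (he : 0 < e)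
    (hw : ∀ f, w.ord (i f) = e * v.ord f) (T : (W⁄H).toAffine.Point) (p : W.toAffine.Point)
    (h : Spec v T p) : SpR w (mp i T) (constPt (RF w) p) := by
  have hZ : ∀ (f : H) (c : k), v.Zer (f - algebraMap k H c) →
      Red w (i f) (algebraMap k (RF w) c) := by
    intro f c hz
    rw [red_iff_val]
    have e1 : i f - algebraMap k K c = i (f - algebraMap k H c) := by
      rw [map_sub, AlgHom.commutes]
    rw [e1]
    rcases hz with hz | hz
    · left; rw [hz, map_zero]
    · right
      rw [hw]
      have : (0 : ℤ) < e := by exact_mod_cast he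
      exact mul_pos this hz
  match T, p with
  | .zero, p =>
    have hp : p = 0 := h
    subst hp
    rfl
  | .some x y hxy, .zero =>
    have h1 : v.ord x < 0 := h
    show w.ord (i x) < 0
    rw [hw]
    have : (0 : ℤ) < e := by exact_mod_cast he
    exact mul_neg_of_pos_of_neg this h1
  | .some x y hxy, .some x₀ y₀ h₀ =>
    exact ⟨hZ x x₀ h.1, hZ y y₀ h.2⟩

/-- [C5b] the specialisation of a point over a field on which the place is trivial -/
theorem SpR_of_triv (j : M →ₐ[k] K) (w : Place k K) (ε : M →ₐ[k] RF w)
    (hε : ∀ m, Red w (j m) (ε m)) (u : (W⁄M).toAffine.Point) : SpR w (mp j u) (mp ε u) := by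
  match u with
  | .zero => rfl
  | .some x y h => exact ⟨hε x, hε y⟩

end Pool.Agent.LibCHd
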