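import Pool.Agent.LibCHd.A
import Pool.Agent.LibCHd.C
import Pool.Agent.LibCHd.B4
import Pool.Agent.LibCHd.B3
import Pool.Agent.LibCHd.B6
import Pool.Agent.LibCHd.B5d

/-!
The key lemma: a zero-cycle on the product of the curves which is rationally equivalent to zero acts
by zero on the Chow groups of all products with projective varieties.
-/

open WeierstrassCurve Pool.Agent.LibBH2 Pool.Agent.LibIG50
open scoped Classical TensorProduct

namespace Pool.Agent.LibCHd

variable {k : Type} [Field k]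
variable {r : ℕ} {W : Fin r → WeierstrassCurve k} {Y : Prj k} {M : Type} [Field M] [Algebra k M]

/-- the cycle `c * Z` as a homomorphism in `c` -/
noncomputable def actC (u : Pnt W Y M) : (Pts W →₀ ℤ) →+ Cyc r Y :=
  Finsupp.liftAddHom fun a => (zmultiplesHom (Cyc r Y)) (cyc (trl a u))

theorem actC_apply (u : Pnt W Y M) (c : Pts W →₀ ℤ) :
    actC u c = c.sum fun a n => n • cyc (trl a u) := rfl

theorem actC_single (u : Pnt W Y M) (a : Pts W) (n : ℤ) :
    actC u (Finsupp.single a n) = n • cyc (trl a u) := by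
  rw [actC_apply]
  exact Finsupp.sum_single_index (zero_smul ℤ _)

theorem SpV_gs (hW : ∀ n, (W n).IsElliptic) {H K : Type} [Field H] [Algebra k H] [Field K]
    [Algebra k K] (i : H →ₐ[k] K) (j : M →ₐ[k] K) (v : Place k H) (w : Place k K)
    (hw : IsGs i j v w) (T : ∀ n, ((W n)⁄H).toAffine.Point) (p : Pts W)
    (hp : ∀ n, Spec v (T n) (p n)) (u : Pnt W Y M) (ε : M →ₐ[k] RF w)
    (hε : ∀ m, Red w (j m) (ε m)) :
    SpV w (Pnt.add (fun n => mp i (T n)) (u.map j)) ((trl p u).map ε) := by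
  rw [trl_map]
  refine ⟨fun n => ?_, 1, one_ne_zero, fun a => ?_⟩
  · have := hW n
    exact SpR_add (SpR_of_Spec i v w 1 one_pos (fun f => by rw [hw.onH]; simp) (T n) (p n) (hp n))
      (SpR_of_triv j w ε hε (u.z n))
  · rw [one_mul]
    exact hε (u.y a)

theorem key [IsAlgClosed k] (hW : ∀ n, (W n).IsElliptic) {d : ℕ} (hM : FunF k d M)
    (u : Pnt W Y M) (c : Pts W →₀ ℤ) (hc : IsPrincipalN W c) : actC u c ∈ RatEq W Y d := by
  obtain ⟨H, _, _, ι, T, φ, S₀, p, hι, hφ, hS₀, hp, rfl⟩ := hc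
  have hH : FunF k 1 H := funF_one ι hι
  have hrat : ∀ v : Place k H, Rat v := fun v => rat_of_funF hH v
  rw [map_sum]
  simp only [actC_single]
  set S := S₀.filter fun v => v.ord φ ≠ 0 with hS
  have hsum : ∑ v ∈ S₀, v.ord φ • cyc (trl (p v) u) = ∑ v ∈ S, v.ord φ • cyc (trl (p v) u) := by
    rw [hS, Finset.sum_filter_of_ne]
    intro v _ h h0
    rw [h0, zero_smul] at h
    exact h rfl
  rw [hsum]
  rcases S.eq_empty_or_nonempty with h0 | ⟨v₀, hv₀⟩
  · rw [h0, Finset.sum_empty]
    exact zero_mem _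
  obtain ⟨e, he1, -, he3⟩ := exists_laurent M v₀ (hrat v₀)
  obtain ⟨K, _, _, i, j, hcps⟩ := exists_cps e he1 he3
  choose w hw using fun v => exists_gs i j hcps v (hrat v)
  choose ε hε using fun v => exists_res_equiv j (w v) (hw v).onM (hw v).res
  have hinj : Function.Injective w := by
    intro v v' h
    apply Place.ext'
    intro f
    rw [← (hw v).onH, ← (hw v').onH, h]
  apply AddSubgroup.subset_closure
  refine ⟨K, inferInstance, inferInstance, Pnt.add (fun n => mp i (T n)) (u.map j), i φ,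
    S.image w, Function.extend w (fun v => cyc (trl (p v) u)) 0, hcps.funF i j hH hM,
    (map_ne_zero i).2 hφ, ?_, ?_, ?_⟩
  · intro v' hv'
    obtain ⟨v, hv, rfl⟩ := Finset.mem_image.1 hv'
    refine ⟨hM.congr (ε v), (trl (p v) u).map (ε v : M →ₐ[k] RF (w v)), ?_, ?_⟩
    · exact SpV_gs hW i j v (w v) (hw v) T (p v) (hp v (Finset.mem_filter.1 hv).1) u _ (hε v)
    · rw [hinj.extend_apply, cyc_map]
  · intro v' hv' hord hF q hq
    by_cases htriv : ∀ m, v'.ord (j m) = 0
    · obtain ⟨v, e', he', hve⟩ := exists_restrict i v' φ hord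
      have h1 : v' = w v := gs_unique i j hcps v (hrat v) (w v) (hw v) v' e' he' hve htriv
      have h2 : v.ord φ ≠ 0 := by
        intro h
        rw [hve, h, mul_zero] at hord
        exact hord rfl
      exact absurd (Finset.mem_image.2 ⟨v, Finset.mem_filter.2 ⟨hS₀ v h2, h2⟩, h1.symm⟩) hv'
    · push Not at htriv
      obtain ⟨m₀, hm₀⟩ := htriv
      exact cyc_eq_zero hW hH hM i j T u v' φ hord m₀ hm₀ hF q hq
  · rw [Finset.sum_image hinj.injOn]
    refine Finset.sum_congr rfl fun v _ => ?_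
    rw [hinj.extend_apply, (hw v).onH]

/-- the action of the Chow group of zero-cycles of the product of the curves -/
noncomputable def actCH [IsAlgClosed k] (hW : ∀ n, (W n).IsElliptic) {d : ℕ} (hM : FunF k d M)
    (u : Pnt W Y M) : CHN W →+ CH W Y d :=
  QuotientAddGroup.lift _ ((QuotientAddGroup.mk' (RatEq W Y d)).comp (actC u)) (by
    rw [AddSubgroup.closure_le]
    intro c hc
    change (QuotientAddGroup.mk' (RatEq W Y d)) (actC u c) = 0
    exact (QuotientAddGroup.eq_zero_iff _).2 (key hW hM u c hc))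

theorem actCH_cls [IsAlgClosed k] (hW : ∀ n, (W n).IsElliptic) {d : ℕ} (hM : FunF k d M)
    (u : Pnt W Y M) (c : Pts W →₀ ℤ) : actCH hW hM u (cls W c) = act d c u := rfl

/-- zero-cycles of finite order act by cycles of finite order -/
theorem act_torsion [IsAlgClosed k] (hW : ∀ n, (W n).IsElliptic) {d : ℕ} (hM : FunF k d M)
    (u : Pnt W Y M) (c : Pts W →₀ ℤ) (hc : IsOfFinAddOrder (cls W c)) :
    IsOfFinAddOrder (act d c u) := by
  rw [← actCH_cls hW hM]
  exact (actCH hW hM u).isOfFinAddOrder hc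

end Pool.Agent.LibCHd
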