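import Pool.Agent.LibBH2.Place

/-!
A valuation which is nontrivial on a field of transcendence degree `d` has a residue field of
smaller transcendence degree: the core of the argument.
-/

open scoped Classical
open Pool.Agent.LibBH2

namespace Pool.Agent.LibCHd

variable {k K M : Type} [Field k] [Field K] [Algebra k K] [Field M] [Algebra k M]

theorem ord_inv_pos {P : Place k K} {f : K} (h : P.ord f ≠ 0) : 0 < P.ord f ∨ 0 < P.ord f⁻¹ := by
  rw [P.ord_inv]; omega

/-- a valuation which is trivial on the algebra generated by a transcendence basis (in the strong sense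
that nonzero elements have order zero) is trivial -/
theorem ord_triv_of_indep {ι : Type} [Finite ι] (hM : Algebra.trdeg k M ≤ Cardinal.mk ι)
    (j : M →ₐ[k] K) (P : Place k K) (u : ι → M)
    (hF : ∀ F : MvPolynomial ι k, F ≠ 0 → P.ord (j (MvPolynomial.aeval u F)) = 0 ∧
      j (MvPolynomial.aeval u F) ≠ 0) (m : M) :
    P.ord (j m) = 0 := by
  have hinj : AlgebraicIndependent k u := by
    rw [algebraicIndependent_iff]
    intro F hF0
    by_contra hne
    exact (hF F hne).2 (by rw [hF0, map_zero])
  have hT : IsTranscendenceBasis k u :=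
    hinj.isTranscendenceBasis_of_trdeg_le_of_finite hM
  have halg : Algebra.IsAlgebraic (Algebra.adjoin k (Set.range u)) M := hT.isAlgebraic
  have hcoef : ∀ a : Algebra.adjoin k (Set.range u), P.Reg (j a) ∧ (a ≠ 0 → ¬ P.Zer (j a)) := by
    rintro ⟨a, ha⟩
    rw [Algebra.adjoin_range_eq_range_aeval] at ha
    obtain ⟨F, rfl⟩ := ha
    by_cases h0 : F = 0
    · subst h0
      refine ⟨by simp [P.reg_zero], fun h => ?_⟩
      exact absurd (Subtype.ext (by simp)) h
    · obtain ⟨h1, h2⟩ := hF F h0
      refine ⟨Or.inr h1.symm.le, fun _ => ?_⟩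
      rintro (h3 | h3)
      · exact h2 h3
      · have h4 : P.ord (j (MvPolynomial.aeval u F)) = 0 := h1
        rw [show j (MvPolynomial.aeval u F) = j ↑(⟨(MvPolynomial.aeval u).toRingHom F, ha⟩ :
          Algebra.adjoin k (Set.range u)) from rfl] at h4
        omega
  have key : ∀ m : M, ¬ 0 < P.ord (j m) := by
    intro m hm
    have hm0 : m ≠ 0 := by rintro rfl; simp [P.ord_zero] at hm
    obtain ⟨G, hc, hG⟩ := (halg.isAlgebraic m).exists_nonzero_coeff_and_aeval_eq_zero
      (mem_nonZeroDivisors_of_ne_zero hm0)
    have h1 : j (G.coeff 0 : Algebra.adjoin k (Set.range u)) =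
        - (j m * j (Polynomial.aeval m G.divX)) := by
      have h2 := congrArg (Polynomial.aeval m) (Polynomial.divX_mul_X_add G)
      rw [hG, map_add, map_mul, Polynomial.aeval_X, Polynomial.aeval_C] at h2
      have h3 : ((G.coeff 0 : Algebra.adjoin k (Set.range u)) : M) =
          - (m * Polynomial.aeval m G.divX) := by
        have : algebraMap (Algebra.adjoin k (Set.range u)) M (G.coeff 0) =
          - (Polynomial.aeval m G.divX * m) := by linear_combination h2
        rw [mul_comm]; exact this
      rw [h3, map_neg, map_mul]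
    have hreg : ∀ G : Polynomial (Algebra.adjoin k (Set.range u)),
        P.Reg (j (Polynomial.aeval m G)) := by
      intro G
      induction G using Polynomial.induction_on' with
      | add p q hp hq => rw [map_add, map_add]; exact hp.add hq
      | monomial n a =>
        rw [Polynomial.aeval_monomial, map_mul, map_pow]
        exact (hcoef a).1.mul (Place.Reg.pow (Or.inr hm.le) n)
    apply (hcoef (G.coeff 0)).2 hc
    rw [h1]
    exact (Place.Zer.mul_reg (Or.inr hm) (hreg _)).neg
  by_contra hne
  rcases ord_inv_pos hne with h | h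
  · exact key m h
  · exact key m⁻¹ (by rwa [map_inv₀])

/-- on a function field of one variable over an algebraically closed field `k` the regular functions
have values in `k` -/
theorem exists_val [IsAlgClosed k] (hM : Algebra.trdeg k M ≤ 1) (j : M →ₐ[k] K) (P : Place k K)
    (hP : ∃ m, P.ord (j m) ≠ 0) (h : M) (hr : P.Reg (j h)) :
    ∃ c : k, P.Zer (j h - algebraMap k K c) := by
  by_contra hcon
  push Not at hcon
  obtain ⟨m, hm⟩ := hP
  apply hm
  refine ord_triv_of_indep (ι := PUnit) (by simpa using hM) j P (fun _ => h) (fun F hF => ?_) m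
  have e : MvPolynomial.aeval (fun _ : PUnit => h) F =
      Polynomial.aeval h (MvPolynomial.uniqueAlgEquiv k PUnit F) := by
    have : (MvPolynomial.aeval (fun _ : PUnit => h) : MvPolynomial PUnit k →ₐ[k] M) =
        (Polynomial.aeval h).comp (MvPolynomial.uniqueAlgEquiv k PUnit).toAlgHom := by
      apply MvPolynomial.algHom_ext
      intro i
      simp
    rw [this]; rfl
  have key : ∀ G : Polynomial k, G ≠ 0 → P.ord (j (Polynomial.aeval h G)) = 0 ∧
      j (Polynomial.aeval h G) ≠ 0 := by
    intro G hG
    have hs := IsAlgClosed.splits G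
    have hprod := hs.eq_prod_roots
    have hG' : j (Polynomial.aeval h G) = algebraMap k K G.leadingCoeff *
        (G.roots.map fun c => j h - algebraMap k K c).prod := by
      conv_lhs => rw [hprod]
      rw [map_mul, map_mul, Polynomial.aeval_C, AlgHom.commutes, map_multiset_prod,
        map_multiset_prod, Multiset.map_map, Multiset.map_map]
      simp
    have hms : ∀ s : Multiset k, P.ord (s.map fun c => j h - algebraMap k K c).prod = 0 ∧
        (s.map fun c => j h - algebraMap k K c).prod ≠ 0 := by
      intro s
      induction s using Multiset.induction_on with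
      | empty => simp
      | cons c s ih =>
        rw [Multiset.map_cons, Multiset.prod_cons]
        have h1 : j h - algebraMap k K c ≠ 0 := fun h0 => hcon c (Or.inl h0)
        have h2 : P.ord (j h - algebraMap k K c) = 0 :=
          Place.ord_eq_zero_of_reg (hr.sub (P.reg_const c)) (hcon c)
        exact ⟨by rw [P.ord_mul _ _ h1 ih.2, h2, ih.1]; rfl, mul_ne_zero h1 ih.2⟩
    have hl : G.leadingCoeff ≠ 0 := Polynomial.leadingCoeff_ne_zero.2 hG
    have hl' : algebraMap k K G.leadingCoeff ≠ 0 := by simpa using hG
    rw [hG']
    exact ⟨by rw [P.ord_mul _ _ hl' (hms _).2, P.ord_const _ hl, (hms _).1]; rfl,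
      mul_ne_zero hl' (hms _).2⟩
  rw [e]
  exact key _ ((map_ne_zero_iff _ (MvPolynomial.uniqueAlgEquiv k PUnit).injective).2 hF)

end Pool.Agent.LibCHd
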