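import Mathlib

/-!
A map which is affine up to torsion has an image of small rank.
-/

open scoped Classical

namespace Pool.Agent.LibCHd

/-- a finitely generated group in which every element has a multiple in the span of `n` elements
has rank at most `n` -/
theorem finrank_le_of_multiples {G : Type*} [AddCommGroup G] {n : ℕ} (e : Fin n → G)
    (h : ∀ g : G, ∃ N : ℤ, N ≠ 0 ∧ N • g ∈ Submodule.span ℤ (Set.range e)) :
    Module.finrank ℤ G ≤ n := by
  set S := Submodule.span ℤ (Set.range e)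
  have h1 : Module.rank ℤ (G ⧸ S) = 0 := by
    rw [rank_eq_zero_iff]
    intro x
    obtain ⟨g, rfl⟩ := Submodule.mkQ_surjective S x
    obtain ⟨N, hN, hg⟩ := h g
    refine ⟨N, hN, ?_⟩
    rw [← map_smul]
    exact (Submodule.Quotient.mk_eq_zero S).2 hg
  have h2 := rank_quotient_add_rank_of_isDomain S
  rw [h1, zero_add] at h2
  have h3 : Module.finrank ℤ G = Module.finrank ℤ S := by
    rw [Module.finrank, Module.finrank, h2]
  rw [h3]
  have h4 : Module.finrank ℤ S ≤ Fintype.card (Fin n) := finrank_range_le_card (R := ℤ) e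
  rwa [Fintype.card_fin] at h4

/-- a group of rank one -/
theorem exists_of_finrank_one {A : Type*} [AddCommGroup A] (hfg : AddGroup.FG A)
    (h1 : Module.finrank ℤ A = 1) : ∃ P : A, ∀ R : A, ∃ N m : ℤ, N ≠ 0 ∧ N • R = m • P := by
  have hfin : Module.Finite ℤ A := Module.Finite.iff_addGroup_fg.2 hfg
  obtain ⟨P, hP⟩ : ∃ P : A, LinearIndependent ℤ ![P] := by
    by_contra hcon
    push Not at hcon
    have h0 : Module.rank ℤ A = 0 := by
      rw [rank_eq_zero_iff]
      intro x
      have h2 := hcon x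
      rw [Fintype.linearIndependent_iff] at h2
      push Not at h2
      obtain ⟨g, hg, i, hi⟩ := h2
      rw [Subsingleton.elim i 0] at hi
      refine ⟨g 0, hi, ?_⟩
      simpa using hg
    rw [Module.finrank, h0] at h1
    simp at h1
  refine ⟨P, fun R => ?_⟩
  have h2 : ¬ LinearIndependent ℤ ![P, R] := by
    intro h3
    have h4 := h3.fintype_card_le_finrank
    rw [h1] at h4
    simp at h4
  rw [Fintype.linearIndependent_iff] at h2
  push Not at h2
  obtain ⟨g, hg, i, hi⟩ := h2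
  rw [Fin.sum_univ_two] at hg
  simp only [Matrix.cons_val_zero, Matrix.cons_val_one] at hg
  by_cases hg1 : g 1 = 0
  · exfalso
    rw [hg1, zero_smul, add_zero] at hg
    have h5 : g 0 = 0 := by
      have h6 := (Fintype.linearIndependent_iff.1 hP) (fun _ => g 0) (by simpa using hg) 0
      exact h6
    fin_cases i
    · exact hi h5
    · exact hi hg1
  · refine ⟨g 1, - g 0, hg1, ?_⟩
    rw [neg_smul]
    exact eq_neg_of_add_eq_zero_right hg

/-- **The rank bound.** -/
theorem rank_bound {r : ℕ} {G : Fin r → Type} [∀ i, AddCommGroup (G i)] {M : Type*}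
    [AddCommGroup M] (F : (∀ i, G i) → M)
    (hF : ∀ x y, IsOfFinAddOrder (F (x + y) - F x - F y + F 0))
    (hfg : ∀ i, AddGroup.FG (G i)) (hG : ∀ i, Module.finrank ℤ (G i) = 1) :
    Module.finrank ℤ (AddSubgroup.closure (Set.range F)) ≤ r + 1 := by
  choose P hP using fun i => exists_of_finrank_one (hfg i) (hG i)
  set C := AddSubgroup.closure (Set.range F) with hC
  have hmem : ∀ x, F x ∈ C := fun x => AddSubgroup.subset_closure ⟨x, rfl⟩
  -- the additive map modulo torsion
  let T := AddCommGroup.torsion C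
  let f : (∀ i, G i) →+ C ⧸ T := AddMonoidHom.mk'
    (fun x => QuotientAddGroup.mk' T (⟨F x, hmem x⟩ - ⟨F 0, hmem 0⟩)) (by
      intro x y
      rw [← map_add]
      refine (QuotientAddGroup.mk'_eq_mk' T).2 ?_
      refine ⟨-(⟨F (x + y), hmem _⟩ - ⟨F x, hmem x⟩ - ⟨F y, hmem y⟩ + ⟨F 0, hmem 0⟩), ?_, ?_⟩
      · refine T.neg_mem ?_
        have h1 := hF x y
        rw [isOfFinAddOrder_iff_nsmul_eq_zero] at h1
        obtain ⟨n, hn, h⟩ := h1
        refine isOfFinAddOrder_iff_nsmul_eq_zero.2 ⟨n, hn, Subtype.ext ?_⟩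
        simpa using h
      · abel)
  let p : Fin r → (∀ i, G i) := fun i => Pi.single i (P i)
  let e : Fin (r + 1) → C := Fin.cons ⟨F 0, hmem 0⟩ fun i => ⟨F (p i), hmem _⟩ - ⟨F 0, hmem 0⟩
  refine finrank_le_of_multiples e ?_
  set S := Submodule.span ℤ (Set.range e)
  have he0 : (⟨F 0, hmem 0⟩ : C) ∈ S := Submodule.subset_span ⟨0, rfl⟩
  have hei : ∀ i, (⟨F (p i), hmem _⟩ - ⟨F 0, hmem 0⟩ : C) ∈ S := fun i =>
    Submodule.subset_span ⟨i.succ, by simp [e]⟩
  -- the elements with a multiple in the span form a subgroup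
  let D : AddSubgroup M :=
    { carrier := {x | ∃ h : x ∈ C, ∃ N : ℤ, N ≠ 0 ∧ N • (⟨x, h⟩ : C) ∈ S}
      zero_mem' := ⟨C.zero_mem, 1, one_ne_zero, by
        rw [one_smul]; exact S.zero_mem⟩
      add_mem' := by
        rintro x y ⟨hx, N, hN, h⟩ ⟨hy, N', hN', h'⟩
        refine ⟨C.add_mem hx hy, N * N', mul_ne_zero hN hN', ?_⟩
        have e1 : (N * N') • (⟨x + y, C.add_mem hx hy⟩ : C) =
            N' • (N • (⟨x, hx⟩ : C)) + N • (N' • (⟨y, hy⟩ : C)) := by
          rw [smul_smul, smul_smul, mul_comm N' N, ← smul_add]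
          rfl
        rw [e1]
        exact S.add_mem (S.smul_mem _ h) (S.smul_mem _ h')
      neg_mem' := by
        rintro x ⟨hx, N, hN, h⟩
        refine ⟨C.neg_mem hx, N, hN, ?_⟩
        have e1 : N • (⟨-x, C.neg_mem hx⟩ : C) = -(N • (⟨x, hx⟩ : C)) := by
          rw [← smul_neg]; rfl
        rw [e1]
        exact S.neg_mem h }
  have hD : C ≤ D := by
    rw [hC, AddSubgroup.closure_le]
    rintro _ ⟨x, rfl⟩
    refine ⟨hmem x, ?_⟩
    choose N m hN hm using fun i => hP i (x i)
    -- a common multiple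
    set L : ℤ := ∏ i, N i with hL
    have hL0 : L ≠ 0 := Finset.prod_ne_zero_iff.2 fun i _ => hN i
    have hdvd : ∀ i, ∃ c, L = c * N i := fun i => by
      obtain ⟨c, hc⟩ := Finset.dvd_prod_of_mem N (Finset.mem_univ i)
      exact ⟨c, by rw [hL, hc]; ring⟩
    choose c hc using hdvd
    have hx : L • x = ∑ i, (c i * m i) • p i := by
      funext l
      rw [Finset.sum_apply, Pi.smul_apply]
      rw [Finset.sum_eq_single l]
      · rw [Pi.smul_apply]
        simp only [p, Pi.single_eq_same]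
        rw [hc l, mul_smul, hm l, mul_smul]
      · intro i _ hil
        rw [Pi.smul_apply]
        simp only [p]
        rw [Pi.single_eq_of_ne (Ne.symm hil), smul_zero]
      · intro h; exact absurd (Finset.mem_univ l) h
    have h1 : L • f x = ∑ i, (c i * m i) • f (p i) := by
      rw [← map_zsmul, hx, map_sum]
      exact Finset.sum_congr rfl fun i _ => map_zsmul f _ _
    have h2 : QuotientAddGroup.mk' T (L • ((⟨F x, hmem x⟩ : C) - ⟨F 0, hmem 0⟩) -
        ∑ i, (c i * m i) • ((⟨F (p i), hmem _⟩ : C) - ⟨F 0, hmem 0⟩)) = 0 := by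
      rw [map_sub, map_zsmul, map_sum, sub_eq_zero]
      refine h1.trans (Finset.sum_congr rfl fun i _ => ?_)
      rw [map_zsmul]
      rfl
    rw [QuotientAddGroup.mk'_apply, QuotientAddGroup.eq_zero_iff] at h2
    obtain ⟨n, hn, h3⟩ := isOfFinAddOrder_iff_nsmul_eq_zero.1 h2
    refine ⟨n * L, mul_ne_zero (by exact_mod_cast hn.ne') hL0, ?_⟩
    have h4 : ((n : ℤ) * L) • (⟨F x, hmem x⟩ : C) = ((n : ℤ) * L) • (⟨F 0, hmem 0⟩ : C) +
        (n : ℤ) • ∑ i, (c i * m i) • ((⟨F (p i), hmem _⟩ : C) - ⟨F 0, hmem 0⟩) := by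
      rw [smul_sub, sub_eq_zero, ← natCast_zsmul, ← natCast_zsmul, smul_smul, smul_sub,
        sub_eq_iff_eq_add] at h3
      rw [h3, add_comm]
    rw [h4]
    refine S.add_mem (S.smul_mem _ he0) (S.smul_mem _ (S.sum_mem fun i _ => S.smul_mem _ (hei i)))
  intro g
  obtain ⟨_, N, hN, h⟩ := hD g.2
  exact ⟨N, hN, h⟩

end Pool.Agent.LibCHd
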