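import Pool.Agent.LibRk1.Clique
import Pool.Agent.LibCHd.Key
import Pool.Agent.LibCHd.RankBound

/-!
The translates of a cycle by the rational points of a product of curves of the infinite set `rkSet`.
-/

open WeierstrassCurve Pool.Agent.LibBH2 Pool.Agent.LibIG50 Rk1
open scoped Classical

namespace Pool.Agent.LibCHd

theorem clique (r : ℕ) (W : Fin r → WeierstrassCurve ℚ) (hW : ∀ i, W i ∈ rkSet) (Y : Prj Qb)
    (d : ℕ) (M : Type) [Field M] [Algebra Qb M] (hM : FunF Qb d M)
    (u : Pnt (fun i => (W i)⁄Qb) Y M) :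
    {g : CH (fun i => (W i)⁄Qb) Y d | ∃ c : (∀ i, (W i).toAffine.Point) →₀ ℤ,
      (c.sum fun _ n => n) = 0 ∧ (∀ i, IsOfFinAddOrder (c.sum fun a n => n • a i)) ∧
      g = act d (c.mapDomain fun a i => constPt Qb (a i)) u}.Finite ∧
    AddGroup.FG (AddSubgroup.closure (Set.range fun a : ∀ i, (W i).toAffine.Point =>
      act d (Finsupp.single (fun i => constPt Qb (a i)) 1) u)) ∧
    Module.finrank ℤ (AddSubgroup.closure (Set.range fun a : ∀ i, (W i).toAffine.Point =>
      act d (Finsupp.single (fun i => constPt Qb (a i)) 1) u)) ≤ r + 1 := by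
  have hE : ∀ i, ((W i)⁄Qb).IsElliptic := by
    intro i
    have : (W i).IsElliptic := ⟨isUnit_iff_ne_zero.2 (rkSet_rank (hW i)).1⟩
    infer_instance
  have hA : ∀ c, actCH hE hM u (cls (fun i => (W i)⁄Qb) c) = act d c u := fun c => rfl
  refine ⟨?_, ?_, ?_⟩
  · refine ((rkSet_finite r W hW).image (actCH hE hM u)).subset ?_
    rintro _ ⟨c, hdeg, hsum, rfl⟩
    exact ⟨_, ⟨c, hdeg, hsum, rfl⟩, hA _⟩
  · have h1 := cls_fg W (fun i => (rkSet_rank (hW i)).1) (fun i => (rkSet_rank (hW i)).2.1)
    obtain ⟨S, hS⟩ := h1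
    refine (AddGroup.fg_iff_addSubgroup_fg _).2 ⟨S.image (actCH hE hM u), ?_⟩
    rw [Finset.coe_image, ← AddMonoidHom.map_closure, hS, AddMonoidHom.map_closure,
      ← Set.range_comp]
    rfl
  · refine rank_bound _ ?_ (fun i => (rkSet_rank (hW i)).2.1) (fun i => (rkSet_rank (hW i)).2.2)
    intro x y
    set c : (∀ i, (W i).toAffine.Point) →₀ ℤ := Finsupp.single (x + y) 1 - Finsupp.single x 1 -
      Finsupp.single y 1 + Finsupp.single 0 1 with hc
    have hdeg : (c.sum fun _ n => n) = 0 := by
      have h := (Finsupp.liftAddHom fun _ : (∀ i, (W i).toAffine.Point) =>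
        (AddMonoidHom.id ℤ)).map_add
      change Finsupp.liftAddHom (fun _ => AddMonoidHom.id ℤ) c = 0
      rw [hc, map_add, map_sub, map_sub]
      simp
    have hsum : ∀ i, IsOfFinAddOrder (c.sum fun a n => n • a i) := by
      intro i
      have h1 : (c.sum fun a n => n • a i) = 0 := by
        change Finsupp.liftAddHom (fun a : (∀ i, (W i).toAffine.Point) =>
          zmultiplesHom _ (a i)) c = 0
        rw [hc, map_add, map_sub, map_sub]
        simp
      rw [h1]
      exact IsOfFinAddOrder.zero
    have h1 := (actCH hE hM u).isOfFinAddOrder (rkSet_cycles r W hW c hdeg hsum)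
    have h2 : (actCH hE hM u) (cls (fun i => (W i)⁄Qb)
        (c.mapDomain fun a i => constPt Qb (a i))) =
        act d (Finsupp.single (fun i => constPt Qb ((x + y) i)) 1) u -
        act d (Finsupp.single (fun i => constPt Qb (x i)) 1) u -
        act d (Finsupp.single (fun i => constPt Qb (y i)) 1) u +
        act d (Finsupp.single (fun i => constPt Qb ((0 : ∀ i, (W i).toAffine.Point) i)) 1) u := by
      rw [← hA, ← hA, ← hA, ← hA, ← map_sub, ← map_sub, ← map_add]
      congr 1
      rw [hc]
      simp only [Finsupp.mapDomain_add, Finsupp.mapDomain_single]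
      have e1 : ∀ a b : (∀ i, (W i).toAffine.Point) →₀ ℤ,
          Finsupp.mapDomain (fun (a : ∀ i, (W i).toAffine.Point) i => constPt Qb (a i)) (a - b) =
          Finsupp.mapDomain (fun a i => constPt Qb (a i)) a -
          Finsupp.mapDomain (fun a i => constPt Qb (a i)) b := by
        intro a b
        exact (Finsupp.mapDomain.addMonoidHom _).map_sub a b
      rw [e1, e1]
      simp only [Finsupp.mapDomain_single]
      rfl
    rw [h2] at h1
    exact h1

end Pool.Agent.LibCHd
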