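import Pool.Agent.LibCHd.Defs

/-!
The group generated by the translates of a cycle by the rational points.
-/

open WeierstrassCurve Pool.Agent.LibBH2 Pool.Agent.LibIG50
open scoped Classical

namespace Pool.Agent.LibCHd

/-- the rational points of `W_1 × ... × W_r`, seen over an extension `k` of the rationals -/
noncomputable def ratPt (k : Type) [Field k] [Algebra ℚ k] {r : ℕ}
    (W : Fin r → WeierstrassCurve ℚ) (a : ∀ i, (W i).toAffine.Point) :
    Pts fun i => (W i)⁄k := fun i => constPt k (a i)

/-- the zero-cycles on `W_1 × ... × W_r` of degree zero with torsion sum in every `W_i` -/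
def albKer {r : ℕ} (W : Fin r → WeierstrassCurve ℚ) : Set ((∀ i, (W i).toAffine.Point) →₀ ℤ) :=
  {c | (c.sum fun _ n => n) = 0 ∧ ∀ i, IsOfFinAddOrder (c.sum fun a n => n • a i)}

/-- the subgroup of `CH d` generated by the classes of the translates of the cycle `cyc u` by all the
rational points of `W_1 × ... × W_r` -/
noncomputable def orb {k : Type} [Field k] [Algebra ℚ k] {r : ℕ} {W : Fin r → WeierstrassCurve ℚ}
    {Y : Prj k} (d : ℕ) {M : Type} [Field M] [Algebra k M] (u : Pnt (fun i => (W i)⁄k) Y M) :
    AddSubgroup (CH (fun i => (W i)⁄k) Y d) :=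
  AddSubgroup.closure (Set.range fun a => act d (Finsupp.single (ratPt k W a) 1) u)

end Pool.Agent.LibCHd
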