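import Pool.Agent.LibCHd.Clique
import Pool.Agent.LibCHd.OrbDefs

/-!
The clique theorem with named definitions.
-/

open WeierstrassCurve Pool.Agent.LibBH2 Pool.Agent.LibIG50 Rk1
open scoped Classical

namespace Pool.Agent.LibCHd

theorem clique2 (r : ℕ) (W : Fin r → WeierstrassCurve ℚ) (hW : ∀ i, W i ∈ rkSet) (Y : Prj Qb)
    (d : ℕ) (M : Type) [Field M] [Algebra Qb M] (hM : FunF Qb d M)
    (u : Pnt (fun i => (W i)⁄Qb) Y M) :
    ((fun c => act d (c.mapDomain (ratPt Qb W)) u) '' albKer W).Finite ∧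
      AddGroup.FG (orb d u) ∧ Module.finrank ℤ (orb d u) ≤ r + 1 := by
  obtain ⟨h1, h2, h3⟩ := clique r W hW Y d M hM u
  refine ⟨h1.subset ?_, h2, h3⟩
  rintro _ ⟨c, ⟨hc1, hc2⟩, rfl⟩
  exact ⟨c, hc1, hc2, rfl⟩

end Pool.Agent.LibCHd
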