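import Pool.Agent.LibCHd.Defs

/-!
Common definitions of the proof: the compositum of two function fields, base change of points.
-/

open WeierstrassCurve Pool.Agent.LibBH2 Pool.Agent.LibIG50
open scoped Classical TensorProduct

namespace Pool.Agent.LibCHd

variable {k : Type} [Field k]

section cps
variable {H M K : Type} [Field H] [Algebra k H] [Field M] [Algebra k M] [Field K] [Algebra k K]

/-- the natural map from the tensor product -/
noncomputable def phi (i : H →ₐ[k] K) (j : M →ₐ[k] K) : H ⊗[k] M →ₐ[k] K :=
  Algebra.TensorProduct.lift i j (fun _ _ => Commute.all _ _)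

@[simp] theorem phi_tmul (i : H →ₐ[k] K) (j : M →ₐ[k] K) (f : H) (m : M) :
    phi i j (f ⊗ₜ m) = i f * j m := by
  simp [phi]

/-- `K` is the field of fractions of `H ⊗ M` -/
structure IsCps (i : H →ₐ[k] K) (j : M →ₐ[k] K) : Prop where
  inj : Function.Injective (phi i j)
  gen : ∀ z : K, ∃ a b : H ⊗[k] M, phi i j b ≠ 0 ∧ z * phi i j b = phi i j a

/-- all regular functions have values in `k` -/
def Rat (v : Place k H) : Prop := ∀ f, v.Reg f → ∃ c : k, v.Zer (f - algebraMap k H c)

/-- `w` is the place of `K` which is trivial on `M`, has the residue field `M` and lies over `v` -/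
structure IsGs (i : H →ₐ[k] K) (j : M →ₐ[k] K) (v : Place k H) (w : Place k K) : Prop where
  onH : ∀ f, w.ord (i f) = v.ord f
  onM : ∀ m, w.ord (j m) = 0
  res : ∀ z, w.Reg z → ∃ m, w.Zer (z - j m)

end cps

section points
variable {r : ℕ} {W : Fin r → WeierstrassCurve k} {Y : Prj k}
variable {M M' : Type} [Field M] [Algebra k M] [Field M'] [Algebra k M']

/-- base change of points of a curve -/
noncomputable def mp {W : WeierstrassCurve k} (f : M →ₐ[k] M') :
    (W⁄M).toAffine.Point →+ (W⁄M').toAffine.Point :=
  WeierstrassCurve.Affine.Point.map f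

theorem mp_zero {W : WeierstrassCurve k} (f : M →ₐ[k] M') :
    mp f (0 : (W⁄M).toAffine.Point) = 0 := map_zero _

theorem mp_some {W : WeierstrassCurve k} (f : M →ₐ[k] M') (x y : M)
    (h : (W⁄M).toAffine.Nonsingular x y) :
    ∃ h', mp f (.some x y h : (W⁄M).toAffine.Point) = .some (f x) (f y) h' :=
  ⟨_, WeierstrassCurve.Affine.Point.map_some f h⟩

/-- base change of points of the variety -/
noncomputable def Pnt.map (f : M →ₐ[k] M') (u : Pnt W Y M) : Pnt W Y M' where
  z i := mp f (u.z i)
  y a := f (u.y a)
  y_ne := by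
    intro h
    apply u.y_ne
    funext a
    have := congrFun h a
    exact (map_eq_zero f).1 this
  mem := by
    intro F hF
    have h1 := u.mem F hF
    have h2 : MvPolynomial.aeval (fun a => f (u.y a)) F = f (MvPolynomial.aeval u.y F) := by
      rw [← AlgHom.comp_apply, MvPolynomial.comp_aeval]
    rw [h2, h1, map_zero]

/-- translate by an arbitrary point of the product of the curves -/
noncomputable def Pnt.add (T : ∀ i, ((W i)⁄M).toAffine.Point) (u : Pnt W Y M) : Pnt W Y M where
  z i := T i + u.z i
  y := u.y
  y_ne := u.y_ne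
  mem := u.mem

end points

end Pool.Agent.LibCHd
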