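import Pool.Agent.LibIG50.Defs

/-!
Cycles of arbitrary dimension and rational equivalence on `W_1 × ... × W_r × Y`, where the `W_i` are
Weierstrass curves and `Y` is a closed subset of a projective space, over a field `k`.

A closed integral subvariety of dimension `d` is given by its generic point, a point with
coordinates in a function field `M` of dimension `d`.
-/

open WeierstrassCurve Pool.Agent.LibBH2 Pool.Agent.LibIG50
open scoped Classical

namespace Pool.Agent.LibCHd

variable {k : Type} [Field k]

/-! ### residue fields of places -/

section place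
variable {K : Type} [Field K] [Algebra k K]

/-- the valuation ring of a place -/
def VR (v : Place k K) : Subring K where
  carrier := {f | v.Reg f}
  mul_mem' := by
    intro f g hf hg
    exact hf.mul hg
  one_mem' := Or.inr (by rw [v.ord_one])
  add_mem' := by
    intro f g hf hg
    exact hf.add hg
  zero_mem' := Or.inl rfl
  neg_mem' := by
    intro f hf
    exact hf.neg

theorem isUnit_VR (v : Place k K) (f : VR v) (h : ¬ v.Zer (f : K)) : IsUnit f := by
  have h0 : (f : K) ≠ 0 := fun h' => h (Or.inl h')
  have h1 : v.ord (f : K) = 0 := Place.ord_eq_zero_of_reg f.2 h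
  have hinv : v.Reg ((f : K)⁻¹) := Or.inr (by rw [v.ord_inv, h1]; simp)
  exact IsUnit.of_mul_eq_one (⟨(f : K)⁻¹, hinv⟩ : VR v) (Subtype.ext (mul_inv_cancel₀ h0))

instance (v : Place k K) : IsLocalRing (VR v) :=
  IsLocalRing.of_isUnit_or_isUnit_one_sub_self fun f => by
    by_cases h : v.Zer (f : K)
    · refine Or.inr (isUnit_VR v _ fun h' => ?_)
      have h2 : v.Zer (1 : K) := by
        have h3 := h.add h'
        rwa [show (f : K) + ((1 - f : VR v) : K) = 1 by push_cast; ring] at h3
      rcases h2 with h2 | h2
      · exact one_ne_zero h2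
      · rw [v.ord_one] at h2
        exact lt_irrefl _ h2
    · exact Or.inl (isUnit_VR v f h)

/-- the constants in the valuation ring -/
noncomputable def cst (v : Place k K) : k →+* VR v where
  toFun c := ⟨algebraMap k K c, v.reg_const c⟩
  map_one' := Subtype.ext (map_one _)
  map_mul' a b := Subtype.ext (map_mul _ a b)
  map_zero' := Subtype.ext (map_zero _)
  map_add' a b := Subtype.ext (map_add _ a b)

noncomputable instance (v : Place k K) : Algebra k (VR v) := (cst v).toAlgebra

/-- the residue field of a place -/
abbrev RF (v : Place k K) : Type := IsLocalRing.ResidueField (VR v)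

/-- `Red v f c`: the function `f` is regular at the place `v` and has the value `c` there -/
def Red (v : Place k K) (f : K) (c : RF v) : Prop :=
  ∃ h : f ∈ VR v, IsLocalRing.residue (VR v) ⟨f, h⟩ = c

end place

/-- `M` is a function field of dimension `d` over `k`: finite over `k(t_1, ..., t_d)` with
algebraically independent `t_1, ..., t_d` -/
def FunF (k : Type) [Field k] (d : ℕ) (M : Type) [Field M] [Algebra k M] : Prop :=
  ∃ t : Fin d → M, AlgebraicIndependent k t ∧
    FiniteDimensional (IntermediateField.adjoin k (Set.range t)) M

/-! ### varieties and their points -/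

/-- a closed subset of the projective space of dimension `N`, given by homogeneous equations -/
structure Prj (k : Type) [Field k] where
  /-- dimension of the projective space -/
  N : ℕ
  /-- the equations -/
  I : Set (MvPolynomial (Fin (N + 1)) k)
  hom : ∀ f ∈ I, ∃ n, f.IsHomogeneous n

/-- a point of `W_1 × ... × W_r × Y` with coordinates in `M` (the homogeneous coordinates `y` are
determined up to a common factor) -/
structure Pnt {r : ℕ} (W : Fin r → WeierstrassCurve k) (Y : Prj k) (M : Type) [Field M]
    [Algebra k M] where
  /-- the components in the curves -/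
  z : ∀ i, ((W i)⁄M).toAffine.Point
  /-- homogeneous coordinates of the component in `Y` -/
  y : Fin (Y.N + 1) → M
  y_ne : y ≠ 0
  mem : ∀ f ∈ Y.I, MvPolynomial.aeval y f = 0

/-- homogeneous coordinates of a point of a curve -/
def hc {W : WeierstrassCurve k} {M : Type} [Field M] [Algebra k M] :
    (W⁄M).toAffine.Point → Fin 3 → M
  | .zero => ![0, 1, 0]
  | .some x y _ => ![x, y, 1]

/-- the indices of the homogeneous coordinates on `W_1 × ... × W_r × Y` -/
abbrev Idx (r N : ℕ) : Type := (Fin r × Fin 3) ⊕ Fin (N + 1)

variable {r : ℕ} {W : Fin r → WeierstrassCurve k} {Y : Prj k} {M : Type} [Field M] [Algebra k M]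

/-- all homogeneous coordinates of a point -/
def co (u : Pnt W Y M) : Idx r Y.N → M := Sum.elim (fun q => hc (u.z q.1) q.2) u.y

/-- multihomogeneous polynomials -/
def MHom {r N : ℕ} (F : MvPolynomial (Idx r N) k) : Prop :=
  ∃ (a : Fin r → ℕ) (b : ℕ), ∀ m ∈ F.support,
    (∀ i, ∑ j : Fin 3, m (Sum.inl (i, j)) = a i) ∧ ∑ j, m (Sum.inr j) = b

/-- the closed subvariety with the generic point `u`, given by its multihomogeneous equations -/
def eqs (u : Pnt W Y M) : Set (MvPolynomial (Idx r Y.N) k) :=
  {F | MHom F ∧ MvPolynomial.aeval (co u) F = 0}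

/-- the field generated by the coordinates of `u`: the function field of the subvariety -/
noncomputable def fld (u : Pnt W Y M) : IntermediateField k M :=
  IntermediateField.adjoin k
    ({c | ∃ i a b, c = hc (u.z i) a / hc (u.z i) b} ∪ {c | ∃ a b, c = u.y a / u.y b})

/-- cycles: formal integral combinations of closed subvarieties, each given by the set of its
equations (sets of equations which are not of the form `eqs u` play no role) -/
abbrev Cyc (r : ℕ) (Y : Prj k) : Type := Set (MvPolynomial (Idx r Y.N) k) →₀ ℤ

/-- the cycle of the point `u`: the subvariety with the generic point `u`, with the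
multiplicity `[M : k(u)]` if this degree is finite, and `0` otherwise (push-forward of the
fundamental cycle of a model of `M`) -/
noncomputable def cyc (u : Pnt W Y M) : Cyc r Y :=
  Finsupp.single (eqs u) (Module.finrank (fld u) M : ℤ)

/-- specialisation of a point of a curve at a place -/
def SpR {K : Type} [Field K] [Algebra k K] (v : Place k K) {W : WeierstrassCurve k} :
    (W⁄K).toAffine.Point → (W⁄(RF v)).toAffine.Point → Prop
  | .zero, p => p = 0
  | .some x _ _, .zero => v.ord x < 0
  | .some x y _, .some x₀ y₀ _ => Red v x x₀ ∧ Red v y y₀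

/-- specialisation of a point of the variety at a place -/
def SpV {K : Type} [Field K] [Algebra k K] (v : Place k K) (u : Pnt W Y K) (q : Pnt W Y (RF v)) :
    Prop :=
  (∀ i, SpR v (u.z i) (q.z i)) ∧ ∃ l : K, l ≠ 0 ∧ ∀ a, Red v (l * u.y a) (q.y a)

/-- `c` is the push-forward of the divisor of a function `g`: `K` is a function field of dimension
`d + 1`, `u` a `K`-point of the variety (a rational map from a model of `K`), and `c` is the sum over
the places `v` of `K` whose residue field is a function field of dimension `d` of `ord_v g` times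
the cycle of the specialisation of `u` at `v`. -/
def IsDiv {r : ℕ} (W : Fin r → WeierstrassCurve k) (Y : Prj k) (d : ℕ) (c : Cyc r Y) : Prop :=
  ∃ (K : Type) (_ : Field K) (_ : Algebra k K) (u : Pnt W Y K) (g : K) (S : Finset (Place k K))
    (C : Place k K → Cyc r Y),
    FunF k (d + 1) K ∧ g ≠ 0 ∧
    (∀ v ∈ S, FunF k d (RF v) ∧ ∃ q : Pnt W Y (RF v), SpV v u q ∧ C v = cyc q) ∧
    (∀ v, v ∉ S → v.ord g ≠ 0 → FunF k d (RF v) → ∀ q : Pnt W Y (RF v), SpV v u q → cyc q = 0) ∧
    c = ∑ v ∈ S, v.ord g • C v

/-- the cycles of dimension `d` rationally equivalent to zero -/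
noncomputable def RatEq {r : ℕ} (W : Fin r → WeierstrassCurve k) (Y : Prj k) (d : ℕ) :
    AddSubgroup (Cyc r Y) :=
  AddSubgroup.closure {c | IsDiv W Y d c}

/-- cycles modulo rational equivalence -/
abbrev CH {r : ℕ} (W : Fin r → WeierstrassCurve k) (Y : Prj k) (d : ℕ) : Type :=
  Cyc r Y ⧸ RatEq W Y d

/-- the translate of the point `u` by a point `a` of `W_1 × ... × W_r` -/
noncomputable def trl (a : Pts W) (u : Pnt W Y M) : Pnt W Y M where
  z i := constPt M (a i) + u.z i
  y := u.y
  y_ne := u.y_ne
  mem := u.mem

/-- the class in `CH d` of `c * Z`: the sum of the translates of the cycle `Z = cyc u` of the point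
`u` with coordinates in a function field `M` of dimension `d` by the points of the zero-cycle `c`.
(Every integral subvariety of dimension `d` is `cyc u` for the inclusion `u` of its generic point.) -/
noncomputable def act (d : ℕ) (c : Pts W →₀ ℤ) (u : Pnt W Y M) : CH W Y d :=
  QuotientAddGroup.mk (c.sum fun a n => n • cyc (trl a u))

end Pool.Agent.LibCHd
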