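import Pool.Agent.LibCHd.Cps

/-!
The compositum of a function field of dimension one and a function field of dimension `d` is a
function field of dimension `d + 1`.
-/

open scoped Classical
open WeierstrassCurve Pool.Agent.LibBH2 Pool.Agent.LibIG50

namespace Pool.Agent.LibCHd

variable {k : Type} [Field k]

/-- elements of a function field become integral over any field containing the parameters, and the
function field is contained in the field generated by finitely many elements -/
theorem funF_image {d : ℕ} {M K : Type} [Field M] [Algebra k M] [Field K] [Algebra k K]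
    (j : M →ₐ[k] K) (t : Fin d → M)
    (hfin : FiniteDimensional (IntermediateField.adjoin k (Set.range t)) M)
    (E : IntermediateField k K) (hE : ∀ i, j (t i) ∈ E) :
    ∃ S : Finset K, (∀ x ∈ S, IsIntegral E x) ∧
      ∀ m, j m ∈ IntermediateField.adjoin E (S : Set K) := by
  have hmem : ∀ x ∈ IntermediateField.adjoin k (Set.range t), j x ∈ E := by
    intro x hx
    have h1 : j x ∈ (IntermediateField.adjoin k (Set.range t)).map j := ⟨x, hx, rfl⟩
    rw [IntermediateField.adjoin_map] at h1
    have h2 : IntermediateField.adjoin k (j '' Set.range t) ≤ E := by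
      rw [IntermediateField.adjoin_le_iff]
      rintro _ ⟨_, ⟨i, rfl⟩, rfl⟩
      exact hE i
    exact h2 h1
  let φ : IntermediateField.adjoin k (Set.range t) →+* E :=
    { toFun := fun x => ⟨j x, hmem x x.2⟩
      map_one' := Subtype.ext (by simp)
      map_mul' := fun a b => Subtype.ext (by simp)
      map_zero' := Subtype.ext (by simp)
      map_add' := fun a b => Subtype.ext (by simp) }
  have hint : ∀ m : M, IsIntegral E (j m) := by
    intro m
    have h1 : IsIntegral (IntermediateField.adjoin k (Set.range t)) m :=
      IsIntegral.of_finite _ _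
    exact h1.map_of_comp_eq φ (j : M →+* K) (by ext x; rfl)
  let b := Module.finBasis (IntermediateField.adjoin k (Set.range t)) M
  refine ⟨Finset.univ.image fun i => j (b i), ?_, ?_⟩
  · intro x hx
    obtain ⟨i, _, rfl⟩ := Finset.mem_image.1 hx
    exact hint _
  · intro m
    rw [← b.sum_repr m, map_sum]
    refine sum_mem fun i _ => ?_
    rw [Algebra.smul_def, map_mul]
    refine mul_mem ?_ ?_
    · exact (IntermediateField.adjoin E _).algebraMap_mem (φ (b.repr m i))
    · exact IntermediateField.subset_adjoin E _ (by simp)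

/-- **The compositum.** -/
theorem funF_succ {d : ℕ} {H M K : Type} [Field H] [Algebra k H] [Field M]
    [Algebra k M] [Field K] [Algebra k K] (jH : H →ₐ[k] K) (jM : M →ₐ[k] K) (hH : FunF k 1 H)
    (hM : FunF k d M)
    (hgen : IntermediateField.adjoin k (Set.range jH ∪ Set.range jM) = ⊤)
    (htr : ∀ s : H, Transcendental k s → ∀ G : Polynomial M, G ≠ 0 →
      Polynomial.eval₂ (jM : M →+* K) (jH s) G ≠ 0) : FunF k (d + 1) K := by
  obtain ⟨s, hs, hfinH⟩ := hH
  obtain ⟨t, ht, hfinM⟩ := hM
  let _ : Algebra M K := (jM : M →+* K).toAlgebra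
  have htow : IsScalarTower k M K := IsScalarTower.of_algebraMap_eq fun x => (jM.commutes x).symm
  have hs0 : Transcendental k (s 0) := hs.transcendental 0
  have hy : AlgebraicIndependent M (fun _ : Unit => jH (s 0)) := by
    rw [algebraicIndependent_unique_type_iff, transcendental_iff]
    intro p hp
    by_contra hne
    exact htr (s 0) hs0 p hne hp
  have hind := ht.sumElim_comp hy
  let e : Fin (d + 1) ≃ Unit ⊕ Fin d :=
    ((finSuccEquiv d).trans (Equiv.optionEquivSumPUnit (Fin d))).trans (Equiv.sumComm _ _)
  refine ⟨Sum.elim (fun _ : Unit => jH (s 0)) (algebraMap M K ∘ t) ∘ e,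
    hind.comp e e.injective, ?_⟩
  rw [e.surjective.range_comp]
  set E := IntermediateField.adjoin k
    (Set.range (Sum.elim (fun _ : Unit => jH (s 0)) (algebraMap M K ∘ t))) with hE
  have hE1 : ∀ i, jH (s i) ∈ E := by
    intro i
    rw [Subsingleton.elim i 0]
    exact IntermediateField.subset_adjoin _ _ ⟨Sum.inl (), rfl⟩
  have hE2 : ∀ i, jM (t i) ∈ E := fun i =>
    IntermediateField.subset_adjoin _ _ ⟨Sum.inr i, rfl⟩
  obtain ⟨S₁, h1, h1'⟩ := funF_image jH s hfinH E hE1
  obtain ⟨S₂, h2, h2'⟩ := funF_image jM t hfinM E hE2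
  have htop : IntermediateField.adjoin E ((S₁ : Set K) ∪ (S₂ : Set K)) = ⊤ := by
    rw [eq_top_iff]
    intro x _
    have h3 : IntermediateField.adjoin k (Set.range jH ∪ Set.range jM) ≤
        (IntermediateField.adjoin E ((S₁ : Set K) ∪ (S₂ : Set K))).restrictScalars k := by
      rw [IntermediateField.adjoin_le_iff]
      rintro _ (⟨h, rfl⟩ | ⟨m, rfl⟩)
      · exact IntermediateField.adjoin.mono E _ _ Set.subset_union_left (h1' h)
      · exact IntermediateField.adjoin.mono E _ _ Set.subset_union_right (h2' m)
    rw [hgen] at h3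
    exact h3 (IntermediateField.mem_top (x := x))
  have hfin : FiniteDimensional E (IntermediateField.adjoin E ((S₁ : Set K) ∪ (S₂ : Set K))) := by
    have : Finite ↥((S₁ : Set K) ∪ (S₂ : Set K)) :=
      (S₁.finite_toSet.union S₂.finite_toSet).to_subtype
    refine IntermediateField.finiteDimensional_adjoin ?_
    rintro x (hx | hx)
    · exact h1 x hx
    · exact h2 x hx
  rw [htop] at hfin
  exact Module.Finite.equiv (IntermediateField.topEquiv (F := E) (E := K)).toLinearEquiv

end Pool.Agent.LibCHd
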