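import Pool.Agent.LibCHd.Key
import Pool.Agent.LibIG50.Main

/-!
The grids of infinite rank act by torsion on all Chow groups.
-/

open WeierstrassCurve Pool.Agent.LibBH2 Pool.Agent.LibIG50
open scoped Classical

namespace Pool.Agent.LibCHd

theorem grid (W₀ : WeierstrassCurve (AlgebraicClosure ℚ)) [W₀.IsElliptic]
    (P : W₀.toAffine.Point) :
    ∃ Γ : ∀ W : WeierstrassCurve (AlgebraicClosure ℚ), AddSubgroup W.toAffine.Point,
      P ∈ Γ W₀ ∧
      (∀ W : WeierstrassCurve (AlgebraicClosure ℚ), W.IsElliptic →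
        ∃ Q : ℕ → Γ W, LinearIndependent ℤ Q) ∧
      ∀ (r : ℕ) (W : Fin r → WeierstrassCurve (AlgebraicClosure ℚ)), (∀ i, (W i).IsElliptic) →
        ∀ (Y : Prj (AlgebraicClosure ℚ)) (d : ℕ) (M : Type) [Field M]
          [Algebra (AlgebraicClosure ℚ) M], FunF (AlgebraicClosure ℚ) d M →
        ∀ (u : Pnt W Y M) (c : Pts W →₀ ℤ), (∀ a ∈ c.support, ∀ i, a i ∈ Γ (W i)) →
          (c.sum fun _ n => n) = 0 → (∀ i, IsOfFinAddOrder (c.sum fun a n => n • a i)) →
          IsOfFinAddOrder (act d c u) := by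
  obtain ⟨Γ, h1, h2, h3⟩ := main W₀ P
  exact ⟨Γ, h1, h2, fun r W hW Y d M _ _ hM u c hc h0 hs =>
    act_torsion hW hM u c (h3 r W hW c hc h0 hs)⟩

end Pool.Agent.LibCHd
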