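import Pool.Agent.LibCHd.RedBasic
import Pool.Agent.LibBH2.AddSub

/-!
The reduction of points of a constant elliptic curve is additive.
-/

open scoped Classical
open WeierstrassCurve Pool.Agent.LibBH2

namespace Pool.Agent.LibCHd

variable {k K κ : Type} [Field k] [Field K] [Algebra k K] [Field κ] [Algebra k κ]
variable {W : WeierstrassCurve k} {P : Place k K} {res : K → κ}

/-- numerator of the slope -/
def nn (F : Type) [Field F] [Algebra k F] (W : WeierstrassCurve k) (x₁ x₂ y₁ : F) : F :=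
  x₁ ^ 2 + x₁ * x₂ + x₂ ^ 2 + algebraMap k F W.a₂ * (x₁ + x₂) + algebraMap k F W.a₄ -
    algebraMap k F W.a₁ * y₁

/-- denominator of the slope -/
def dd (F : Type) [Field F] [Algebra k F] (W : WeierstrassCurve k) (x₂ y₁ y₂ : F) : F :=
  y₁ + y₂ + algebraMap k F W.a₁ * x₂ + algebraMap k F W.a₃

theorem negY_eq (F : Type) [Field F] [Algebra k F] (x y : F) :
    (W⁄F).toAffine.negY x y = -y - algebraMap k F W.a₁ * x - algebraMap k F W.a₃ := by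
  rw [Affine.negY, a₁_eq, a₃_eq]

theorem dd_eq (F : Type) [Field F] [Algebra k F] (x₂ y₁ y₂ : F) :
    dd F W x₂ y₁ y₂ = y₁ - (W⁄F).toAffine.negY x₂ y₂ := by
  rw [negY_eq, dd]; ring

theorem nd_identity {F : Type} [Field F] [Algebra k F] {x₁ x₂ y₁ y₂ : F}
    (h₁ : (W⁄F).toAffine.Equation x₁ y₁) (h₂ : (W⁄F).toAffine.Equation x₂ y₂) :
    (y₁ - y₂) * dd F W x₂ y₁ y₂ = (x₁ - x₂) * nn F W x₁ x₂ y₁ := by
  have e₁ := ((W⁄F).toAffine.equation_iff x₁ y₁).1 h₁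
  have e₂ := ((W⁄F).toAffine.equation_iff x₂ y₂).1 h₂
  rw [a₁_eq, a₂_eq, a₃_eq, a₄_eq, a₆_eq] at e₁ e₂
  rw [dd, nn]
  linear_combination e₁ - e₂

/-- `slope * dd = nn` -/
theorem slope_mul_dd {F : Type} [Field F] [Algebra k F] {x₁ x₂ y₁ y₂ : F}
    (h₁ : (W⁄F).toAffine.Equation x₁ y₁) (h₂ : (W⁄F).toAffine.Equation x₂ y₂)
    (hd : dd F W x₂ y₁ y₂ ≠ 0) :
    (W⁄F).toAffine.slope x₁ x₂ y₁ y₂ = nn F W x₁ x₂ y₁ / dd F W x₂ y₁ y₂ := by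
  rw [eq_div_iff hd]
  by_cases hx : x₁ = x₂
  · have hy : y₁ ≠ (W⁄F).toAffine.negY x₂ y₂ := by
      intro h
      rw [dd_eq, h, sub_self] at hd
      exact hd rfl
    have hy' := Affine.Y_eq_of_Y_ne h₁ h₂ hx hy
    subst hx hy'
    rw [Affine.slope_of_Y_ne rfl hy]
    rw [dd_eq] at hd ⊢
    rw [div_mul_cancel₀ _ hd, nn, a₁_eq, a₂_eq, a₄_eq]
    ring
  · rw [Affine.slope_of_X_ne hx]
    have h3 : x₁ - x₂ ≠ 0 := sub_ne_zero.2 hx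
    rw [div_mul_eq_mul_div, nd_identity h₁ h₂, mul_div_cancel_left₀ _ h3]

theorem reg_nn {x₁ x₂ y₁ : K} (h1 : P.Reg x₁) (h2 : P.Reg x₂) (h3 : P.Reg y₁) :
    P.Reg (nn K W x₁ x₂ y₁) :=
  (((((h1.pow 2).add (h1.mul h2)).add (h2.pow 2)).add ((P.reg_const _).mul (h1.add h2))).add
    (P.reg_const _)).sub ((P.reg_const _).mul h3)

theorem res_nn (hr : IsRes P res) {x₁ x₂ y₁ : K} (h1 : P.Reg x₁) (h2 : P.Reg x₂)
    (h3 : P.Reg y₁) : res (nn K W x₁ x₂ y₁) = nn κ W (res x₁) (res x₂) (res y₁) := by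
  have r := P.reg_const (K := K)
  rw [nn, nn, hr.sub (((((h1.pow 2).add (h1.mul h2)).add (h2.pow 2)).add
    ((r _).mul (h1.add h2))).add (r _)) ((r _).mul h3),
    hr.add _ _ ((((h1.pow 2).add (h1.mul h2)).add (h2.pow 2)).add ((r _).mul (h1.add h2))) (r _),
    hr.add _ _ (((h1.pow 2).add (h1.mul h2)).add (h2.pow 2)) ((r _).mul (h1.add h2)),
    hr.add _ _ ((h1.pow 2).add (h1.mul h2)) (h2.pow 2), hr.add _ _ (h1.pow 2) (h1.mul h2),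
    hr.pow h1, hr.pow h2, hr.mul _ _ h1 h2, hr.mul _ _ (r _) (h1.add h2), hr.add _ _ h1 h2,
    hr.mul _ _ (r _) h3, hr.const, hr.const, hr.const]

theorem reg_dd {x₂ y₁ y₂ : K} (h1 : P.Reg x₂) (h2 : P.Reg y₁) (h3 : P.Reg y₂) :
    P.Reg (dd K W x₂ y₁ y₂) :=
  ((h2.add h3).add ((P.reg_const _).mul h1)).add (P.reg_const _)

theorem res_dd (hr : IsRes P res) {x₂ y₁ y₂ : K} (h1 : P.Reg x₂) (h2 : P.Reg y₁)
    (h3 : P.Reg y₂) : res (dd K W x₂ y₁ y₂) = dd κ W (res x₂) (res y₁) (res y₂) := by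
  have r := P.reg_const (K := K)
  rw [dd, dd, hr.add _ _ ((h2.add h3).add ((r _).mul h1)) (r _),
    hr.add _ _ (h2.add h3) ((r _).mul h1), hr.add _ _ h2 h3, hr.mul _ _ (r _) h1, hr.const,
    hr.const]

theorem addX_eq (F : Type) [Field F] [Algebra k F] (x₁ x₂ l : F) :
    (W⁄F).toAffine.addX x₁ x₂ l = l ^ 2 + algebraMap k F W.a₁ * l - algebraMap k F W.a₂ - x₁ - x₂ := by
  rw [Affine.addX, a₁_eq, a₂_eq]

/-- the regular case -/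
theorem spG_add_reg (hr : IsRes P res) {x₁ y₁ x₂ y₂ : K}
    (h₁ : (W⁄K).toAffine.Nonsingular x₁ y₁) (h₂ : (W⁄K).toAffine.Nonsingular x₂ y₂)
    {X₁ Y₁ X₂ Y₂ : κ} (H₁ : (W⁄κ).toAffine.Nonsingular X₁ Y₁)
    (H₂ : (W⁄κ).toAffine.Nonsingular X₂ Y₂)
    (hp : SpG P res (.some x₁ y₁ h₁) (.some X₁ Y₁ H₁))
    (hq : SpG P res (.some x₂ y₂ h₂) (.some X₂ Y₂ H₂))
    (hne : ¬ (X₁ = X₂ ∧ Y₁ = (W⁄κ).toAffine.negY X₂ Y₂)) :
    SpG P res (Affine.Point.some x₁ y₁ h₁ + .some x₂ y₂ h₂)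
      (Affine.Point.some X₁ Y₁ H₁ + .some X₂ Y₂ H₂) := by
  obtain ⟨rx₁, ry₁, rfl, rfl⟩ := hp
  obtain ⟨rx₂, ry₂, rfl, rfl⟩ := hq
  have hne' : ¬ (x₁ = x₂ ∧ y₁ = (W⁄K).toAffine.negY x₂ y₂) := by
    rintro ⟨rfl, hy⟩
    apply hne
    refine ⟨rfl, ?_⟩
    rw [negY_eq] at hy ⊢
    have r := P.reg_const (K := K)
    rw [hy, hr.sub (ry₂.neg.sub ((r _).mul rx₁)) (r _), hr.sub ry₂.neg ((r _).mul rx₁),
      hr.neg ry₂, hr.mul _ _ (r _) rx₁, hr.const, hr.const]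
  have hsl : P.Reg ((W⁄K).toAffine.slope x₁ x₂ y₁ y₂) ∧
      res ((W⁄K).toAffine.slope x₁ x₂ y₁ y₂) =
        (W⁄κ).toAffine.slope (res x₁) (res x₂) (res y₁) (res y₂) := by
    by_cases hX : res x₁ = res x₂
    · have hY : res y₁ ≠ (W⁄κ).toAffine.negY (res x₂) (res y₂) := fun h => hne ⟨hX, h⟩
      have hd' : dd κ W (res x₂) (res y₁) (res y₂) ≠ 0 := by
        rw [dd_eq]; exact sub_ne_zero.2 hY
      have hd : dd K W x₂ y₁ y₂ ≠ 0 := by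
        intro h0
        rw [← res_dd hr rx₂ ry₁ ry₂, h0, hr.zero] at hd'
        exact hd' rfl
      rw [slope_mul_dd h₁.1 h₂.1 hd, slope_mul_dd H₁.1 H₂.1 hd', ← res_nn hr rx₁ rx₂ ry₁,
        ← res_dd hr rx₂ ry₁ ry₂]
      exact hr.reg_div (reg_nn rx₁ rx₂ ry₁) (reg_dd rx₂ ry₁ ry₂)
        (by rw [res_dd hr rx₂ ry₁ ry₂]; exact hd')
    · have hx : x₁ ≠ x₂ := fun h => hX (by rw [h])
      rw [Affine.slope_of_X_ne hx, Affine.slope_of_X_ne hX, ← hr.sub rx₁ rx₂, ← hr.sub ry₁ ry₂]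
      exact hr.reg_div (ry₁.sub ry₂) (rx₁.sub rx₂)
        (by rw [hr.sub rx₁ rx₂]; exact sub_ne_zero.2 hX)
  obtain ⟨hl, hl'⟩ := hsl
  rw [Affine.Point.add_some hne', Affine.Point.add_some hne]
  have r := P.reg_const (K := K)
  have hX3 : P.Reg ((W⁄K).toAffine.addX x₁ x₂ ((W⁄K).toAffine.slope x₁ x₂ y₁ y₂)) ∧
      res ((W⁄K).toAffine.addX x₁ x₂ ((W⁄K).toAffine.slope x₁ x₂ y₁ y₂)) =
      (W⁄κ).toAffine.addX (res x₁) (res x₂)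
        ((W⁄κ).toAffine.slope (res x₁) (res x₂) (res y₁) (res y₂)) := by
    rw [addX_eq, addX_eq, ← hl']
    refine ⟨((((hl.pow 2).add ((r _).mul hl)).sub (r _)).sub rx₁).sub rx₂, ?_⟩
    rw [hr.sub ((((hl.pow 2).add ((r _).mul hl)).sub (r _)).sub rx₁) rx₂,
      hr.sub (((hl.pow 2).add ((r _).mul hl)).sub (r _)) rx₁,
      hr.sub ((hl.pow 2).add ((r _).mul hl)) (r _), hr.add _ _ (hl.pow 2) ((r _).mul hl),
      hr.pow hl, hr.mul _ _ (r _) hl, hr.const, hr.const]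
  obtain ⟨hX3, hX3'⟩ := hX3
  refine ⟨hX3, ?_, hX3', ?_⟩
  · rw [Affine.addY, Affine.negAddY, negY_eq]
    exact (((hl.mul (hX3.sub rx₁)).add ry₁).neg.sub ((r _).mul hX3)).sub (r _)
  · rw [Affine.addY, Affine.negAddY, negY_eq, Affine.addY, Affine.negAddY, negY_eq, ← hX3', ← hl',
      hr.sub (((hl.mul (hX3.sub rx₁)).add ry₁).neg.sub ((r _).mul hX3)) (r _),
      hr.sub ((hl.mul (hX3.sub rx₁)).add ry₁).neg ((r _).mul hX3),
      hr.neg ((hl.mul (hX3.sub rx₁)).add ry₁), hr.add _ _ (hl.mul (hX3.sub rx₁)) ry₁,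
      hr.mul _ _ hl (hX3.sub rx₁), hr.sub hX3 rx₁, hr.mul _ _ (r _) hX3, hr.const, hr.const]

end Pool.Agent.LibCHd
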