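import Pool.Agent.LibCHd.RedAdd

/-!
The reduction of points of a constant elliptic curve is additive: opposite reductions.
-/

open scoped Classical
open WeierstrassCurve Pool.Agent.LibBH2

namespace Pool.Agent.LibCHd

variable {k K κ : Type} [Field k] [Field K] [Algebra k K] [Field κ] [Algebra k κ]
variable {W : WeierstrassCurve k} {P : Place k K} {res : K → κ}

theorem ord_addX_neg {x₁ x₂ l : K} (h1 : P.Reg x₁) (h2 : P.Reg x₂) (hl : P.ord l < 0) :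
    P.ord ((W⁄K).toAffine.addX x₁ x₂ l) < 0 := by
  rcases reg_or P ((W⁄K).toAffine.addX x₁ x₂ l) with h | h
  · exfalso
    rw [addX_eq] at h
    have h3 : P.Reg l := by
      refine reg_of_quad (P.reg_const W.a₁)
        (((h.add (P.reg_const W.a₂)).add h1).add h2) ?_
      ring
    rcases h3 with rfl | h3
    · rw [P.ord_zero] at hl; exact lt_irrefl _ hl
    · omega
  · exact h

theorem spG_neg (hr : IsRes P res) {T : (W⁄K).toAffine.Point} {p : (W⁄κ).toAffine.Point}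
    (h : SpG P res T p) : SpG P res (-T) (-p) := by
  match T, p with
  | .zero, p =>
    have : p = 0 := h
    subst this
    show SpG P res (-0) (-0)
    rw [neg_zero, neg_zero]; rfl
  | .some x y _, .zero =>
    show SpG P res (-_) (-0)
    rw [neg_zero, Affine.Point.neg_some]
    exact h
  | .some x y _, .some x₀ y₀ _ =>
    obtain ⟨rx, ry, rfl, rfl⟩ := h
    rw [Affine.Point.neg_some, Affine.Point.neg_some]
    have r := P.reg_const (K := K)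
    refine ⟨rx, ?_, rfl, ?_⟩
    · rw [negY_eq]; exact (ry.neg.sub ((r _).mul rx)).sub (r _)
    · rw [negY_eq, negY_eq, hr.sub (ry.neg.sub ((r _).mul rx)) (r _),
        hr.sub ry.neg ((r _).mul rx), hr.neg ry, hr.mul _ _ (r _) rx, hr.const, hr.const]

/-- opposite reductions -/
theorem spG_add_opp (hr : IsRes P res) {x₁ y₁ x₂ y₂ : K}
    (h₁ : (W⁄K).toAffine.Nonsingular x₁ y₁) (h₂ : (W⁄K).toAffine.Nonsingular x₂ y₂)
    {X₁ Y₁ X₂ Y₂ : κ} (H₁ : (W⁄κ).toAffine.Nonsingular X₁ Y₁)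
    (H₂ : (W⁄κ).toAffine.Nonsingular X₂ Y₂)
    (hp : SpG P res (.some x₁ y₁ h₁) (.some X₁ Y₁ H₁))
    (hq : SpG P res (.some x₂ y₂ h₂) (.some X₂ Y₂ H₂))
    (heq : X₁ = X₂ ∧ Y₁ = (W⁄κ).toAffine.negY X₂ Y₂) :
    SpG P res (Affine.Point.some x₁ y₁ h₁ + .some x₂ y₂ h₂)
      (Affine.Point.some X₁ Y₁ H₁ + .some X₂ Y₂ H₂) := by
  rw [Affine.Point.add_of_Y_eq heq.1 heq.2]
  by_cases hT : x₁ = x₂ ∧ y₁ = (W⁄K).toAffine.negY x₂ y₂
  · rw [Affine.Point.add_of_Y_eq hT.1 hT.2]; rfl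
  rw [Affine.Point.add_some hT]
  obtain ⟨rx₁, ry₁, rfl, rfl⟩ := hp
  obtain ⟨rx₂, ry₂, rfl, rfl⟩ := hq
  obtain ⟨hX, hY⟩ := heq
  show P.ord _ < 0
  apply ord_addX_neg rx₁ rx₂
  have hzx : P.Zer (x₁ - x₂) := by
    rw [← hr.zero_iff _ (rx₁.sub rx₂), hr.sub rx₁ rx₂, hX, sub_self]
  by_cases hY' : res y₁ = res y₂
  · -- two-torsion
    have hzd : P.Zer (dd K W x₂ y₁ y₂) := by
      rw [← hr.zero_iff _ (reg_dd rx₂ ry₁ ry₂), res_dd hr rx₂ ry₁ ry₂, dd_eq, sub_eq_zero]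
      exact hY
    have hn : res (nn K W x₁ x₂ y₁) ≠ 0 := by
      rw [res_nn hr rx₁ rx₂ ry₁, nn]
      have h3 := ((W⁄κ).toAffine.nonsingular_iff' _ _).1 H₁
      rcases h3.2 with h4 | h4
      · rw [a₁_eq, a₂_eq, a₄_eq] at h4
        rw [← hX]
        intro h5
        apply h4
        linear_combination -h5
      · exfalso
        apply h4
        rw [negY_eq, ← hX, ← hY'] at hY
        rw [a₁_eq, a₃_eq]
        linear_combination hY
    have hon : P.ord (nn K W x₁ x₂ y₁) = 0 := hr.ord_eq_zero (reg_nn rx₁ rx₂ ry₁) hn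
    have hn0 : nn K W x₁ x₂ y₁ ≠ 0 := by
      intro h0; rw [h0, hr.zero] at hn; exact hn rfl
    have hd0 : dd K W x₂ y₁ y₂ ≠ 0 := by
      intro h0
      have h3 := nd_identity h₁.1 h₂.1
      rw [h0, mul_zero] at h3
      have h4 : x₁ - x₂ = 0 := (mul_eq_zero.1 h3.symm).resolve_right hn0
      rw [dd_eq] at h0
      exact hT ⟨sub_eq_zero.1 h4, sub_eq_zero.1 h0⟩
    rw [slope_mul_dd h₁.1 h₂.1 hd0, P.ord_div _ _ hn0 hd0, hon]
    have := hzd.resolve_left hd0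
    omega
  · have hx : x₁ ≠ x₂ := by
      intro h
      rcases Affine.Y_eq_of_X_eq h₁.1 h₂.1 h with h3 | h3
      · exact hY' (by rw [h3])
      · exact hT ⟨h, h3⟩
    have hx0 : x₁ - x₂ ≠ 0 := sub_ne_zero.2 hx
    have hy0 : res (y₁ - y₂) ≠ 0 := by rw [hr.sub ry₁ ry₂]; exact sub_ne_zero.2 hY'
    have hy1 : y₁ - y₂ ≠ 0 := by
      intro h0; rw [h0, hr.zero] at hy0; exact hy0 rfl
    rw [Affine.slope_of_X_ne hx, P.ord_div _ _ hy1 hx0, hr.ord_eq_zero (ry₁.sub ry₂) hy0]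
    have := hzx.resolve_left hx0
    omega

/-- both reductions are affine -/
theorem spG_add_affine (hr : IsRes P res) {x₁ y₁ x₂ y₂ : K}
    (h₁ : (W⁄K).toAffine.Nonsingular x₁ y₁) (h₂ : (W⁄K).toAffine.Nonsingular x₂ y₂)
    {X₁ Y₁ X₂ Y₂ : κ} (H₁ : (W⁄κ).toAffine.Nonsingular X₁ Y₁)
    (H₂ : (W⁄κ).toAffine.Nonsingular X₂ Y₂)
    (hp : SpG P res (.some x₁ y₁ h₁) (.some X₁ Y₁ H₁))
    (hq : SpG P res (.some x₂ y₂ h₂) (.some X₂ Y₂ H₂)) :
    SpG P res (Affine.Point.some x₁ y₁ h₁ + .some x₂ y₂ h₂)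
      (Affine.Point.some X₁ Y₁ H₁ + .some X₂ Y₂ H₂) := by
  by_cases h : X₁ = X₂ ∧ Y₁ = (W⁄κ).toAffine.negY X₂ Y₂
  · exact spG_add_opp hr h₁ h₂ H₁ H₂ hp hq h
  · exact spG_add_reg hr h₁ h₂ H₁ H₂ hp hq h

end Pool.Agent.LibCHd
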