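import Pool.Agent.LibBH2.CH0

/-!
Residue maps of a place and the reduction of points of a constant Weierstrass curve.
-/

open scoped Classical
open WeierstrassCurve Pool.Agent.LibBH2

namespace Pool.Agent.LibCHd

variable {k K κ : Type} [Field k] [Field K] [Algebra k K] [Field κ] [Algebra k κ]

/-- `res` is a residue map of the place `P` with values in the field `κ` (on regular elements) -/
structure IsRes (P : Place k K) (res : K → κ) : Prop where
  add : ∀ f g, P.Reg f → P.Reg g → res (f + g) = res f + res g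
  mul : ∀ f g, P.Reg f → P.Reg g → res (f * g) = res f * res g
  const : ∀ c : k, res (algebraMap k K c) = algebraMap k κ c
  zero_iff : ∀ f, P.Reg f → (res f = 0 ↔ P.Zer f)

/-- the `K`-point `T` of the constant curve `W` reduces to `p` -/
def SpG (P : Place k K) (res : K → κ) {W : WeierstrassCurve k} :
    (W⁄K).toAffine.Point → (W⁄κ).toAffine.Point → Prop
  | .zero, p => p = 0
  | .some x _ _, .zero => P.ord x < 0
  | .some x y _, .some x₀ y₀ _ => P.Reg x ∧ P.Reg y ∧ res x = x₀ ∧ res y = y₀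

namespace IsRes

variable {P : Place k K} {res : K → κ} (h : IsRes P res)
include h

theorem zero : res 0 = 0 := by
  have := h.const 0
  simpa using this

theorem one : res 1 = 1 := by
  have := h.const 1
  simpa using this

theorem neg {f : K} (hf : P.Reg f) : res (-f) = - res f := by
  have h1 := h.add f (-f) hf hf.neg
  rw [add_neg_cancel, h.zero] at h1
  exact (neg_eq_of_add_eq_zero_right h1.symm).symm

theorem sub {f g : K} (hf : P.Reg f) (hg : P.Reg g) : res (f - g) = res f - res g := by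
  rw [sub_eq_add_neg, h.add _ _ hf hg.neg, h.neg hg, sub_eq_add_neg]

theorem pow {f : K} (hf : P.Reg f) (n : ℕ) : res (f ^ n) = res f ^ n := by
  induction n with
  | zero => simp [h.one]
  | succ n ih => rw [pow_succ, h.mul _ _ (hf.pow n) hf, ih, pow_succ]

theorem reg_inv {f : K} (hf : P.Reg f) (h0 : res f ≠ 0) : P.Reg f⁻¹ ∧ res f⁻¹ = (res f)⁻¹ := by
  have h1 : ¬ P.Zer f := fun hz => h0 ((h.zero_iff f hf).2 hz)
  have h2 : P.ord f = 0 := Place.ord_eq_zero_of_reg hf h1
  have h3 : f ≠ 0 := fun h0 => h1 (Or.inl h0)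
  have h4 : P.Reg f⁻¹ := Or.inr (by rw [P.ord_inv, h2]; simp)
  refine ⟨h4, ?_⟩
  have h5 := h.mul f f⁻¹ hf h4
  rw [mul_inv_cancel₀ h3, h.one] at h5
  exact (inv_eq_of_mul_eq_one_right h5.symm).symm

theorem reg_div {f g : K} (hf : P.Reg f) (hg : P.Reg g) (h0 : res g ≠ 0) :
    P.Reg (f / g) ∧ res (f / g) = res f / res g := by
  obtain ⟨h1, h2⟩ := h.reg_inv hg h0
  rw [div_eq_mul_inv, div_eq_mul_inv, ← h2]
  exact ⟨hf.mul h1, h.mul _ _ hf h1⟩

theorem ord_eq_zero {f : K} (hf : P.Reg f) (h0 : res f ≠ 0) : P.ord f = 0 :=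
  Place.ord_eq_zero_of_reg hf fun hz => h0 ((h.zero_iff f hf).2 hz)

end IsRes

theorem reg_or (P : Place k K) (f : K) : P.Reg f ∨ P.ord f < 0 := by
  rcases lt_or_ge (P.ord f) 0 with h | h
  · exact Or.inr h
  · exact Or.inl (Or.inr h)

/-- an element which satisfies a monic quadratic equation with regular coefficients is regular -/
theorem reg_of_quad {P : Place k K} {y b c : K} (hb : P.Reg b) (hc : P.Reg c)
    (h : y ^ 2 + b * y = c) : P.Reg y := by
  rcases reg_or P y with h1 | h1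
  · exact h1
  exfalso
  have hy : y ≠ 0 := by rintro rfl; simp [P.ord_zero] at h1
  have h2 : P.Zer y⁻¹ := Or.inr (by rw [P.ord_inv]; omega)
  have h3 : (1 : K) = c * (y⁻¹ * y⁻¹) - b * y⁻¹ := by
    field_simp
    linear_combination h
  have h4 : P.Zer (1 : K) := by
    rw [h3]
    exact (Place.Zer.reg_mul hc (h2.mul_reg h2.reg)).sub (Place.Zer.reg_mul hb h2)
  rcases h4 with h4 | h4
  · exact one_ne_zero h4
  · rw [P.ord_one] at h4; exact lt_irrefl _ h4

theorem not_zer_one (P : Place k K) : ¬ P.Zer (1 : K) := by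
  rintro (h | h)
  · exact one_ne_zero h
  · rw [P.ord_one] at h; exact lt_irrefl _ h

section curve

variable {W : WeierstrassCurve k} {P : Place k K} {res : K → κ}

theorem a₁_eq (F : Type) [Field F] [Algebra k F] : (W⁄F).a₁ = algebraMap k F W.a₁ := rfl
theorem a₂_eq (F : Type) [Field F] [Algebra k F] : (W⁄F).a₂ = algebraMap k F W.a₂ := rfl
theorem a₃_eq (F : Type) [Field F] [Algebra k F] : (W⁄F).a₃ = algebraMap k F W.a₃ := rfl
theorem a₄_eq (F : Type) [Field F] [Algebra k F] : (W⁄F).a₄ = algebraMap k F W.a₄ := rfl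
theorem a₆_eq (F : Type) [Field F] [Algebra k F] : (W⁄F).a₆ = algebraMap k F W.a₆ := rfl

theorem reg_y {x y : K} (h : (W⁄K).toAffine.Equation x y) (hx : P.Reg x) : P.Reg y := by
  have e := ((W⁄K).toAffine.equation_iff x y).1 h
  rw [a₁_eq, a₂_eq, a₃_eq, a₄_eq, a₆_eq] at e
  refine reg_of_quad (b := algebraMap k K W.a₁ * x + algebraMap k K W.a₃)
    (c := x ^ 3 + algebraMap k K W.a₂ * x ^ 2 + algebraMap k K W.a₄ * x + algebraMap k K W.a₆)
    (((P.reg_const _).mul hx).add (P.reg_const _)) ?_ (by linear_combination e)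
  exact (((hx.pow 3).add ((P.reg_const _).mul (hx.pow 2))).add ((P.reg_const _).mul hx)).add
    (P.reg_const _)

theorem eq_res (hr : IsRes P res) {x y : K} (h : (W⁄K).toAffine.Equation x y) (hx : P.Reg x)
    (hy : P.Reg y) : (W⁄κ).toAffine.Equation (res x) (res y) := by
  have e := ((W⁄K).toAffine.equation_iff x y).1 h
  rw [a₁_eq, a₂_eq, a₃_eq, a₄_eq, a₆_eq] at e
  rw [(W⁄κ).toAffine.equation_iff, a₁_eq, a₂_eq, a₃_eq, a₄_eq, a₆_eq]
  have h1 := congrArg res e
  have r1 := P.reg_const W.a₁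
  have r2 := P.reg_const W.a₂
  have r3 := P.reg_const W.a₃
  have r4 := P.reg_const W.a₄
  have r6 := P.reg_const W.a₆
  rw [hr.add _ _ ((hy.pow 2).add ((r1.mul hx).mul hy)) (r3.mul hy),
    hr.add _ _ (hy.pow 2) ((r1.mul hx).mul hy), hr.pow hy, hr.mul _ _ (r1.mul hx) hy,
    hr.mul _ _ r1 hx, hr.mul _ _ r3 hy,
    hr.add _ _ (((hx.pow 3).add (r2.mul (hx.pow 2))).add (r4.mul hx)) r6,
    hr.add _ _ ((hx.pow 3).add (r2.mul (hx.pow 2))) (r4.mul hx),
    hr.add _ _ (hx.pow 3) (r2.mul (hx.pow 2)), hr.pow hx, hr.mul _ _ r2 (hx.pow 2), hr.pow hx,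
    hr.mul _ _ r4 hx, hr.const, hr.const, hr.const, hr.const, hr.const] at h1
  exact h1

theorem exists_SpG [W.IsElliptic] (hr : IsRes P res) (T : (W⁄K).toAffine.Point) :
    ∃ p : (W⁄κ).toAffine.Point, SpG P res T p := by
  match T with
  | .zero => exact ⟨0, rfl⟩
  | .some x y h =>
    rcases reg_or P x with hx | hx
    · have hy := reg_y h.1 hx
      have : (W⁄κ).toAffine.IsElliptic := inferInstanceAs (W.map (algebraMap k κ)).IsElliptic
      exact ⟨.some (res x) (res y) (Affine.equation_iff_nonsingular.1 (eq_res hr h.1 hx hy)),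
        hx, hy, rfl, rfl⟩
    · exact ⟨.zero, hx⟩

theorem SpG_unique {T : (W⁄K).toAffine.Point} {p q : (W⁄κ).toAffine.Point} (hp : SpG P res T p)
    (hq : SpG P res T q) : p = q := by
  have hcon : ∀ {x : K}, P.Reg x → P.ord x < 0 → False := by
    intro x hx hx'
    rcases hx with rfl | hx
    · rw [P.ord_zero] at hx'; exact lt_irrefl _ hx'
    · omega
  match T, p, q with
  | .zero, p, q => exact hp.trans hq.symm
  | .some x y h, .zero, .zero => rfl
  | .some x y h, .zero, .some x₀ y₀ h₀ => exact (hcon hq.1 hp).elim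
  | .some x y h, .some x₀ y₀ h₀, .zero => exact (hcon hp.1 hq).elim
  | .some x y h, .some x₀ y₀ h₀, .some x₁ y₁ h₁ =>
    obtain ⟨_, _, rfl, rfl⟩ := hp
    obtain ⟨_, _, rfl, rfl⟩ := hq
    rfl

end curve

end Pool.Agent.LibCHd
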